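import Mathlib
import Pool.Graph.R_seed8.Helper617.RM.SadsBounding

/-!
The digraph, inside a model `N` of `RCA₀`. Vertices: hubs `z t`; in segment `t` (between `z t` and
`z (t+1)`) there are `p t, q t, r t` and private vertices `u t a`, `x t a`; the in-lane of type `a`
consists of `w a t`, `y a t`, `y' a t` and passes through `r t` if `IA t a` and through
`p t → q t` if `IB t a`.
-/

set_option autoImplicit false
set_option linter.unusedSectionVars false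
set_option linter.unusedVariables false

namespace Pool.Agent.KS6_46.IRT

open Pool.Agent.Helper617.RM

universe u

variable {N : L2Structure.{u}} [IsModelRCA0 N]

/-! ### arithmetic -/

theorem lt_succ (a : N.M) : a < a + 1 := lt_add_one_iff'.2 le_rfl

theorem ge_add {a b : N.M} (h : a ≤ b) : ∃ c, b = a + c := exists_sub h

theorem gt_add {a b : N.M} (h : a < b) : ∃ c, b = a + c + 1 := (lt_iff_add'' _ _).1 h

theorem divmod {d t t' j j' : N.M} (hj : j < d) (hj' : j' < d) (h : d * t + j = d * t' + j') :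
    t = t' ∧ j = j' := by
  have key : ∀ t t' j j' : N.M, j < d → d * t + j = d * t' + j' → ¬ t < t' := by
    intro t t' j j' hj h hlt
    obtain ⟨k, rfl⟩ := gt_add hlt
    have h1 : d * t + j = d * t + (d * k + j' + d) := by rw [h]; ring
    have h2 := add_left_cancel h1
    rw [h2] at hj
    exact absurd hj (not_lt_of_ge (le_add_of_nonneg_left (zero_le' _)))
  rcases lt_trichotomy t t' with h1 | h1 | h1
  · exact absurd h1 (key _ _ _ _ hj h)
  · subst h1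
    exact ⟨rfl, add_left_cancel h⟩
  · exact absurd h1 (key _ _ _ _ hj' h.symm)

theorem div4 (n : N.M) : ∃ t, n = 4 * t ∨ n = 4 * t + 1 ∨ n = 4 * t + 2 ∨ n = 4 * t + 3 := by
  refine ind_S1 (P := fun n => ∃ t, n = 4 * t ∨ n = 4 * t + 1 ∨ n = 4 * t + 2 ∨ n = 4 * t + 3)
    ?_ ?_ ?_ n
  · refine S1.ex (D0.S1 (D0.or ?_ (D0.or ?_ (D0.or ?_ ?_))))
    · exact D0.eq (Tm.var 1) ((Tm.const 4).mul (Tm.var 0))
    · exact D0.eq (Tm.var 1) (((Tm.const 4).mul (Tm.var 0)).add Tm.one)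
    · exact D0.eq (Tm.var 1) (((Tm.const 4).mul (Tm.var 0)).add (Tm.const 2))
    · exact D0.eq (Tm.var 1) (((Tm.const 4).mul (Tm.var 0)).add (Tm.const 3))
  · exact ⟨0, Or.inl (by ring)⟩
  · rintro n ⟨t, h | h | h | h⟩
    · exact ⟨t, Or.inr (Or.inl (by rw [h]))⟩
    · exact ⟨t, Or.inr (Or.inr (Or.inl (by rw [h]; ring)))⟩
    · exact ⟨t, Or.inr (Or.inr (Or.inr (by rw [h]; ring)))⟩
    · exact ⟨t + 1, Or.inl (by rw [h]; ring)⟩

theorem div3 (n : N.M) : ∃ t, n = 3 * t ∨ n = 3 * t + 1 ∨ n = 3 * t + 2 := by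
  refine ind_S1 (P := fun n => ∃ t, n = 3 * t ∨ n = 3 * t + 1 ∨ n = 3 * t + 2)
    ?_ ?_ ?_ n
  · refine S1.ex (D0.S1 (D0.or ?_ (D0.or ?_ ?_)))
    · exact D0.eq (Tm.var 1) ((Tm.const 3).mul (Tm.var 0))
    · exact D0.eq (Tm.var 1) (((Tm.const 3).mul (Tm.var 0)).add Tm.one)
    · exact D0.eq (Tm.var 1) (((Tm.const 3).mul (Tm.var 0)).add (Tm.const 2))
  · exact ⟨0, Or.inl (by ring)⟩
  · rintro n ⟨t, h | h | h⟩
    · exact ⟨t, Or.inr (Or.inl (by rw [h]))⟩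
    · exact ⟨t, Or.inr (Or.inr (by rw [h]; ring))⟩
    · exact ⟨t + 1, Or.inl (by rw [h]; ring)⟩

/-- A set-many pigeonhole principle: a function of the model that is injective on an unbounded set
of the model takes arbitrarily large values on it. -/
theorem php {S : N.M → Prop} (hS : D0 (fun v => S (v 0))) {φ : N.M → N.M}
    (hφ : D0 (fun v => v 1 = φ (v 0))) (hinj : ∀ i j, S i → S j → φ i = φ j → i = j)
    (hunb : ∀ K, ∃ i, K ≤ i ∧ S i) (b : N.M) : ∃ i, S i ∧ b ≤ φ i := by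
  by_contra hcon
  push Not at hcon
  obtain ⟨K, hK⟩ := strong_bounding (Q := fun x k => S k ∧ x = φ k)
    (D0.and (hS.pred (Tm.var 1)) (D0.rel (R := fun k x => x = φ k) hφ (Tm.var 1) (Tm.var 0))) b
  obtain ⟨i, hi, hSi⟩ := hunb K
  obtain ⟨k, hk, hSk, he⟩ := hK (φ i) (hcon i hSi) ⟨i, hSi, rfl⟩
  have := hinj _ _ hSi hSk he
  subst this
  exact absurd hk (not_lt_of_ge hi)

/-! ### types -/

/-- the types of the same colour -/
def Same (a b : N.M) : Prop :=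
  a = b ∨ ∃ c, c ≤ a ∧ ∃ i, i ≤ a ∧ ∃ j, j ≤ b ∧ (i < c ∧ j < c ∧ a = pr c i ∧ b = pr c j)

theorem Same_D0 : D0 (fun v : Ctx N => Same (v 0) (v 1)) := by
  refine D0.or (D0.eq (Tm.var 0) (Tm.var 1)) (D0.bexLe (Tm.var 0) (D0.bexLe (Tm.var 1)
    (D0.bexLe (Tm.var 3) ?_)))
  refine D0.and (D0.lt (Tm.var 1) (Tm.var 2)) (D0.and (D0.lt (Tm.var 0) (Tm.var 2)) (D0.and ?_ ?_))
  · exact D0.eq (Tm.var 3) ((Tm.var 2).pr (Tm.var 1))
  · exact D0.eq (Tm.var 4) ((Tm.var 2).pr (Tm.var 0))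

theorem same_pr {c i j : N.M} (hi : i < c) (hj : j < c) : Same (pr c i) (pr c j) :=
  Or.inr ⟨c, fst_le_pr _ _, i, snd_le_pr _ _, j, snd_le_pr _ _, hi, hj, rfl, rfl⟩

/-- the pair of types `(a, b)` of different colours is treated at `t` -/
def Sch (t a b : N.M) : Prop := ∃ s, s ≤ t ∧ (t = pr (pr a b) s ∧ ¬ Same a b)

def IA (t a : N.M) : Prop := ∃ b, b ≤ t ∧ Sch t a b

def IB (t b : N.M) : Prop := ∃ a, a ≤ t ∧ Sch t a b

theorem Sch_D0 : D0 (fun v : Ctx N => Sch (v 0) (v 1) (v 2)) := by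
  refine D0.bexLe (Tm.var 0) (D0.and ?_ ?_)
  · exact D0.eq (Tm.var 1) (((Tm.var 2).pr (Tm.var 3)).pr (Tm.var 0))
  · exact (D0.rel (R := Same) Same_D0 (Tm.var 2) (Tm.var 3)).not

theorem D0.rel3' {R : N.M → N.M → N.M → Prop} (h : D0 (fun v => R (v 0) (v 1) (v 2)))
    {s t u : Ctx N → N.M} (hs : Tm s) (ht : Tm t) (hu : Tm u) :
    D0 (fun v => R (s v) (t v) (u v)) :=
  h.comp (g := fun v => cons (s v) (cons (t v) (cons (u v) v)))
    (CM.cons hs (CM.cons ht (CM.cons hu CM.id)))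

theorem IA_D0 {s t : Ctx N → N.M} (hs : Tm s) (ht : Tm t) : D0 (fun v => IA (s v) (t v)) :=
  D0.bexLe hs (D0.rel3' Sch_D0 hs.tail ht.tail (Tm.var 0))

theorem IB_D0 {s t : Ctx N → N.M} (hs : Tm s) (ht : Tm t) : D0 (fun v => IB (s v) (t v)) :=
  D0.bexLe hs (D0.rel3' Sch_D0 hs.tail (Tm.var 0) ht.tail)

theorem Sch.le {t a b : N.M} (h : Sch t a b) : a ≤ t ∧ b ≤ t := by
  obtain ⟨s, _, rfl, _⟩ := h
  exact ⟨(fst_le_pr _ _).trans (fst_le_pr _ _), (snd_le_pr _ _).trans (fst_le_pr _ _)⟩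

theorem Sch.uniq {t a b a' b' : N.M} (h : Sch t a b) (h' : Sch t a' b') : a = a' ∧ b = b' := by
  obtain ⟨s, _, e, _⟩ := h
  obtain ⟨s', _, e', _⟩ := h'
  exact pr_inj (pr_inj (e.symm.trans e')).1

theorem Sch.ns {t a b : N.M} (h : Sch t a b) : ¬ Same a b := by
  obtain ⟨s, _, _, e⟩ := h
  exact e

theorem IA.uniq {t a a' : N.M} (h : IA t a) (h' : IA t a') : a = a' := by
  obtain ⟨b, _, h⟩ := h
  obtain ⟨b', _, h'⟩ := h'
  exact (h.uniq h').1

theorem IB.uniq {t a a' : N.M} (h : IB t a) (h' : IB t a') : a = a' := by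
  obtain ⟨b, _, h⟩ := h
  obtain ⟨b', _, h'⟩ := h'
  exact (h.uniq h').2

theorem IA.le {t a : N.M} (h : IA t a) : a ≤ t := by
  obtain ⟨b, _, h⟩ := h
  exact h.le.1

theorem IB.le {t a : N.M} (h : IB t a) : a ≤ t := by
  obtain ⟨b, _, h⟩ := h
  exact h.le.2

theorem IA_IB {t a b : N.M} (h : IA t a) (h' : IB t b) : ¬ Same a b := by
  obtain ⟨b', _, h⟩ := h
  obtain ⟨a', _, h'⟩ := h'
  obtain ⟨rfl, rfl⟩ := h.uniq h'
  exact h.ns

theorem IA_not_IB {t a : N.M} (h : IA t a) (h' : IB t a) : False := IA_IB h h' (Or.inl rfl)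

theorem freq {a b : N.M} (h : ¬ Same a b) (s : N.M) : ∃ t, s ≤ t ∧ IA t a ∧ IB t b := by
  refine ⟨pr (pr a b) s, snd_le_pr _ _, ?_⟩
  have h1 : Sch (pr (pr a b) s) a b := ⟨s, snd_le_pr _ _, rfl, h⟩
  exact ⟨⟨b, h1.le.2, h1⟩, ⟨a, h1.le.1, h1⟩⟩

/-! ### the digraph -/

inductive Vx (M : Type u) : Type u
  | z (t : M) | p (t : M) | q (t : M) | r (t : M)
  | u (t a : M) | x (t a : M)
  | w (a t : M) | y (a t : M) | y' (a t : M)

open Vx

/-- `Arc a` are the arcs of the canonical double ray of type `a`. -/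
inductive Arc : N.M → Vx N.M → Vx N.M → Prop
  | zp (t a : N.M) (h : IA t a) : Arc a (z t) (p t)
  | zu (t a : N.M) (h : ¬ IA t a) : Arc a (z t) (u t a)
  | ur (t a : N.M) (h : ¬ IA t a) : Arc a (u t a) (r t)
  | rx (t a : N.M) (h : ¬ IA t a) : Arc a (r t) (x t a)
  | xz (t t' a : N.M) (e : t' = t + 1) : Arc a (x t a) (z t')
  | pqA (t a : N.M) (h : IA t a) : Arc a (p t) (q t)
  | pqB (t a : N.M) (h : IB t a) : Arc a (p t) (q t)
  | qx (t a : N.M) (h : IA t a) : Arc a (q t) (x t a)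
  | qw (t a : N.M) (h : IB t a) : Arc a (q t) (w a t)
  | rw (t a : N.M) (h : IA t a) : Arc a (r t) (w a t)
  | yr (t a : N.M) (h : IA t a) : Arc a (y a t) (r t)
  | yy (t a : N.M) (h : ¬ IA t a) (h' : ¬ IB t a) : Arc a (y a t) (y' a t)
  | yw (t a : N.M) : Arc a (y' a t) (w a t)
  | wy (t t' a : N.M) (e : t' = t + 1) (h : ¬ IB t a) : Arc a (w a t') (y a t)
  | wp (t t' a : N.M) (e : t' = t + 1) (h : IB t a) : Arc a (w a t') (p t)
  | w0 (a t s : N.M) (e : t = 0) (e' : s = 0) : Arc a (w a t) (z s)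

def E (v v' : Vx N.M) : Prop := ∃ a, Arc a v v'

lemma Arc_disj {a b : N.M} {v v' : Vx N.M} (hab : a ≠ b) (hs : Same a b) (hs' : Same b a)
    (h1 : Arc a v v') (h2 : Arc b v v') : False := by
  cases h1 with
  | zp t a h => cases h2 with
    | zp _ _ h' => exact hab (h.uniq h')
  | zu t a h => cases h2; exact hab rfl
  | ur t a h => cases h2; exact hab rfl
  | rx t a h => cases h2; exact hab rfl
  | xz t t' a e => cases h2; exact hab rfl
  | pqA t a h => cases h2 with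
    | pqA _ _ h' => exact hab (h.uniq h')
    | pqB _ _ h' => exact IA_IB h h' hs
  | pqB t a h => cases h2 with
    | pqA _ _ h' => exact IA_IB h' h hs'
    | pqB _ _ h' => exact hab (h.uniq h')
  | qx t a h => cases h2; exact hab rfl
  | qw t a h => cases h2; exact hab rfl
  | rw t a h => cases h2; exact hab rfl
  | yr t a h => cases h2; exact hab rfl
  | yy t a h h' => cases h2; exact hab rfl
  | yw t a => cases h2; exact hab rfl
  | wy t t' a e h => cases h2; exact hab rfl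
  | wp t t' a e h => cases h2; exact hab rfl
  | w0 a t s e e' => cases h2; exact hab rfl

/-! ### inversion -/

lemma pred_w {v : Vx N.M} {a t : N.M} (h : E v (w a t)) :
    (v = r t ∧ IA t a) ∨ (v = q t ∧ IB t a) ∨ v = y' a t := by
  obtain ⟨b, h⟩ := h
  cases h with
  | qw _ _ h => exact Or.inr (Or.inl ⟨rfl, h⟩)
  | rw _ _ h => exact Or.inl ⟨rfl, h⟩
  | yw _ _ => exact Or.inr (Or.inr rfl)

lemma pred_r {v : Vx N.M} {t : N.M} (h : E v (r t)) :
    (∃ a, v = u t a) ∨ ∃ a, v = y a t ∧ IA t a := by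
  obtain ⟨b, h⟩ := h
  cases h with
  | ur _ _ _ => exact Or.inl ⟨_, rfl⟩
  | yr _ _ h => exact Or.inr ⟨_, rfl, h⟩

lemma pred_u {v : Vx N.M} {t a : N.M} (h : E v (u t a)) : v = z t := by
  obtain ⟨b, h⟩ := h
  cases h; rfl

lemma pred_q {v : Vx N.M} {t : N.M} (h : E v (q t)) : v = p t := by
  obtain ⟨b, h⟩ := h
  cases h <;> rfl

lemma pred_p {v : Vx N.M} {t : N.M} (h : E v (p t)) :
    v = z t ∨ ∃ a, v = w a (t + 1) ∧ IB t a := by
  obtain ⟨b, h⟩ := h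
  cases h with
  | zp _ _ _ => exact Or.inl rfl
  | wp _ _ _ e h => exact Or.inr ⟨b, by rw [e], h⟩

lemma pred_y {v : Vx N.M} {a t : N.M} (h : E v (y a t)) : v = w a (t + 1) := by
  obtain ⟨b, h⟩ := h
  cases h with
  | wy _ _ _ e h => rw [e]

lemma pred_y' {v : Vx N.M} {a t : N.M} (h : E v (y' a t)) : v = y a t := by
  obtain ⟨b, h⟩ := h
  cases h with
  | yy _ _ h h' => rfl

lemma pred_y'' {v : Vx N.M} {a t : N.M} (h : E v (y' a t)) : ¬ IA t a ∧ ¬ IB t a := by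
  obtain ⟨b, h⟩ := h
  cases h with
  | yy _ _ h h' => exact ⟨h, h'⟩

lemma pred_x {v : Vx N.M} {t a : N.M} (h : E v (x t a)) : v = r t ∨ v = q t := by
  obtain ⟨b, h⟩ := h
  cases h <;> simp

lemma succ_z {v : Vx N.M} {t : N.M} (h : E (z t) v) : v = p t ∨ ∃ a, v = u t a := by
  obtain ⟨b, h⟩ := h
  cases h <;> simp

lemma succ_u {v : Vx N.M} {t a : N.M} (h : E (u t a) v) : v = r t := by
  obtain ⟨b, h⟩ := h
  cases h; rfl

lemma succ_p {v : Vx N.M} {t : N.M} (h : E (p t) v) : v = q t := by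
  obtain ⟨b, h⟩ := h
  cases h <;> rfl

lemma succ_w {v : Vx N.M} {a t : N.M} (h : E (w a t) v) :
    v = z 0 ∨ ∃ t', t = t' + 1 ∧ ((v = y a t' ∧ ¬ IB t' a) ∨ (v = p t' ∧ IB t' a)) := by
  obtain ⟨b, h⟩ := h
  cases h with
  | wy t' _ _ e h => exact Or.inr ⟨t', e, Or.inl ⟨rfl, h⟩⟩
  | wp t' _ _ e h => exact Or.inr ⟨t', e, Or.inr ⟨rfl, h⟩⟩
  | w0 _ _ s e e' => exact Or.inl (by rw [e'])

lemma succ_w_uniq {v v' : Vx N.M} {a t : N.M} (h : E (w a (t + 1)) v) (h' : E (w a (t + 1)) v') :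
    v = v' := by
  have key : ∀ {v : Vx N.M}, E (w a (t + 1)) v →
      ((v = y a t ∧ ¬ IB t a) ∨ (v = p t ∧ IB t a)) := by
    intro v h
    obtain ⟨b, h⟩ := h
    generalize ht : t + 1 = s at h
    cases h with
    | wy t' _ _ e h => obtain rfl := add_cancel' (ht.trans e); exact Or.inl ⟨rfl, h⟩
    | wp t' _ _ e h => obtain rfl := add_cancel' (ht.trans e); exact Or.inr ⟨rfl, h⟩
    | w0 _ _ s e e' => exact absurd (ht.trans e) (succ_ne_zero' _)
  rcases key h with ⟨h1, h2⟩ | ⟨h1, h2⟩ <;> rcases key h' with ⟨h3, h4⟩ | ⟨h3, h4⟩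
  · rw [h1, h3]
  · exact absurd h4 h2
  · exact absurd h2 h4
  · rw [h1, h3]

/-! ### codes of vertices -/

noncomputable def lv : Vx N.M → N.M
  | z _ => 4
  | p _ => 3
  | u _ _ => 3
  | y _ _ => 3
  | q _ => 2
  | r _ => 2
  | y' _ _ => 2
  | w _ _ => 1
  | x _ _ => 1

noncomputable def kd : Vx N.M → N.M
  | z _ => 0
  | p _ => 0
  | u _ _ => 1
  | y _ _ => 2
  | q _ => 0
  | r _ => 1
  | y' _ _ => 2
  | w _ _ => 0
  | x _ _ => 1

def tt : Vx N.M → N.M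
  | z t => t
  | p t => t
  | u t _ => t
  | y _ t => t
  | q t => t
  | r t => t
  | y' _ t => t
  | w _ t => t
  | x t _ => t

def aa : Vx N.M → N.M
  | z _ => 0
  | p _ => 0
  | u _ a => a
  | y a _ => a
  | q _ => 0
  | r _ => 0
  | y' a _ => a
  | w a _ => a
  | x _ a => a

noncomputable def cod (v : Vx N.M) : N.M := pr (lv v) (pr (kd v) (pr (tt v) (aa v)))

theorem cod_inj {v v' : Vx N.M} (h : cod v = cod v') : v = v' := by
  obtain ⟨h1, h⟩ := pr_inj h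
  obtain ⟨h2, h⟩ := pr_inj h
  obtain ⟨h3, h4⟩ := pr_inj h
  cases v <;> cases v' <;> simp [lv, kd, tt, aa] at h1 h2 h3 h4 ⊢ <;>
    first | exact h3 | exact ⟨h3, h4⟩ | exact ⟨h4, h3⟩

theorem tt_le (v : Vx N.M) : tt v ≤ cod v :=
  ((fst_le_pr _ _).trans (snd_le_pr _ _)).trans (snd_le_pr _ _)

theorem aa_le (v : Vx N.M) : aa v ≤ cod v :=
  ((snd_le_pr _ _).trans (snd_le_pr _ _)).trans (snd_le_pr _ _)

noncomputable def rk (v : Vx N.M) : N.M := 3 * tt v + lv v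

lemma rk_lt {v v' : Vx N.M} (h : E v v') : (∃ t, v' = z t) ∨ rk v' < rk v := by
  obtain ⟨b, h⟩ := h
  cases h with
  | xz t t' a e => exact Or.inl ⟨_, rfl⟩
  | w0 a t s e e' => exact Or.inl ⟨_, rfl⟩
  | wy t t' a e h =>
    right
    subst e
    simp only [rk, tt, lv]
    have : 3 * (t + 1) + 1 = 3 * t + 4 := by ring
    rw [this]
    gcongr
    norm_num
  | wp t t' a e h =>
    right
    subst e
    simp only [rk, tt, lv]
    have : 3 * (t + 1) + 1 = 3 * t + 4 := by ring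
    rw [this]
    gcongr
    norm_num
  | _ =>
    right
    simp only [rk, tt, lv]
    gcongr
    norm_num

lemma tt_le_succ {v v' : Vx N.M} (h : E v v') : tt v' ≤ tt v ∨ v' = z (tt v + 1) := by
  obtain ⟨b, h⟩ := h
  cases h with
  | xz t t' a e => subst e; exact Or.inr rfl
  | w0 a t s e e' => subst e e'; exact Or.inl le_rfl
  | wy t t' a e h => subst e; exact Or.inl (lt_succ t).le
  | wp t t' a e h => subst e; exact Or.inl (lt_succ t).le
  | _ => exact Or.inl le_rfl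

end Pool.Agent.KS6_46.IRT
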