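import Mathlib
import Pool.Agent.KS6_46.IRT.Dig

/-!
Forward rays of the digraph inside a model of `RCA₀`: after a hub all higher hubs follow, and no
vertex `w a t` follows a hub.
-/

set_option autoImplicit false
set_option linter.unusedSectionVars false
set_option linter.unusedVariables false

namespace Pool.Agent.KS6_46.IRT

open Pool.Agent.Helper617.RM Vx

universe u

variable {N : L2Structure.{u}} [IsModelRCA0 N]

/-! ### functions of the model with values in the vertices -/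

theorem D0.fn {φ : N.M → N.M} (hφ : D0 (fun v => v 1 = φ (v 0))) {s t : Ctx N → N.M}
    (hs : Tm s) (ht : Tm t) : D0 (fun v => t v = φ (s v)) :=
  D0.rel (R := fun k x => x = φ k) hφ hs ht

theorem D0.pfn {P : N.M → Prop} (hP : D0 (fun v => P (v 0))) {φ : N.M → N.M}
    (hφ : D0 (fun v => v 1 = φ (v 0))) : D0 (fun v => P (φ (v 0))) := by
  have h := d0_comp_fun (F := fun a _ => P a) hP hφ
  exact h

theorem fn_of {φ : N.M → N.M} (hφ : D0 (fun v => v 1 = φ (v 0))) {R : N.M → N.M → Prop}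
    (hR : D0 (fun v => R (v 0) (v 1))) {ψ : N.M → N.M} (h : ∀ n y, y = ψ n ↔ R (φ n) y) :
    D0 (fun v => v 1 = ψ (v 0)) :=
  (d0_comp_fun (F := R) hR hφ).congr fun v => (h _ _).symm

theorem tcz {s : Ctx N → N.M} (hs : Tm s) : Tm (fun v => cod (z (s v))) :=
  (Tm.const 4).pr (Tm.zero.pr (hs.pr Tm.zero))

theorem tcw {s t : Ctx N → N.M} (hs : Tm s) (ht : Tm t) : Tm (fun v => cod (w (s v) (t v))) :=
  Tm.one.pr (Tm.zero.pr (ht.pr hs))

theorem tcy {s t : Ctx N → N.M} (hs : Tm s) (ht : Tm t) : Tm (fun v => cod (y (s v) (t v))) :=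
  (Tm.const 3).pr ((Tm.const 2).pr (ht.pr hs))

theorem tcy' {s t : Ctx N → N.M} (hs : Tm s) (ht : Tm t) : Tm (fun v => cod (y' (s v) (t v))) :=
  (Tm.const 2).pr ((Tm.const 2).pr (ht.pr hs))

theorem tcu {s t : Ctx N → N.M} (hs : Tm s) (ht : Tm t) : Tm (fun v => cod (u (s v) (t v))) :=
  (Tm.const 3).pr (Tm.one.pr (hs.pr ht))

theorem tcx {s t : Ctx N → N.M} (hs : Tm s) (ht : Tm t) : Tm (fun v => cod (x (s v) (t v))) :=
  Tm.one.pr (Tm.one.pr (hs.pr ht))

theorem tcp {s : Ctx N → N.M} (hs : Tm s) : Tm (fun v => cod (p (s v))) :=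
  (Tm.const 3).pr (Tm.zero.pr (hs.pr Tm.zero))

theorem tcq {s : Ctx N → N.M} (hs : Tm s) : Tm (fun v => cod (q (s v))) :=
  (Tm.const 2).pr (Tm.zero.pr (hs.pr Tm.zero))

theorem tcr {s : Ctx N → N.M} (hs : Tm s) : Tm (fun v => cod (r (s v))) :=
  (Tm.const 2).pr (Tm.one.pr (hs.pr Tm.zero))

/-- `h` is a function of the model, with values in the vertices -/
def Fun (h : N.M → Vx N.M) : Prop := D0 (fun v => v 1 = cod (h (v 0)))

theorem Fun.fn {h : N.M → Vx N.M} (H : Fun h) {s t : Ctx N → N.M} (hs : Tm s) (ht : Tm t) :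
    D0 (fun v => t v = cod (h (s v))) :=
  D0.rel (R := fun k x => x = cod (h k)) H hs ht

theorem Fun.eqz {h : N.M → Vx N.M} (H : Fun h) {s t : Ctx N → N.M} (hs : Tm s) (ht : Tm t) :
    D0 (fun v => h (s v) = z (t v)) :=
  (H.fn hs (tcz ht)).congr fun v => ⟨fun e => cod_inj e.symm, fun e => by rw [e]⟩

theorem Fun.eqw {h : N.M → Vx N.M} (H : Fun h) {s t a : Ctx N → N.M} (hs : Tm s) (ha : Tm a)
    (ht : Tm t) : D0 (fun v => h (s v) = w (a v) (t v)) :=
  (H.fn hs (tcw ha ht)).congr fun v => ⟨fun e => cod_inj e.symm, fun e => by rw [e]⟩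

theorem Fun.tt {h : N.M → Vx N.M} (H : Fun h) : D0 (fun v => v 1 = tt (h (v 0))) := by
  refine fn_of (φ := fun n => cod (h n)) (ψ := fun n => IRT.tt (h n)) H
    (R := fun c y => ∃ l, l ≤ c ∧ ∃ k, k ≤ c ∧ ∃ a, a ≤ c ∧
    c = pr l (pr k (pr y a))) ?_ ?_
  · refine D0.bexLe (Tm.var 0) (D0.bexLe (Tm.var 1) (D0.bexLe (Tm.var 2) ?_))
    exact D0.eq (Tm.var 3) ((Tm.var 2).pr ((Tm.var 1).pr ((Tm.var 4).pr (Tm.var 0))))
  · intro n y
    constructor
    · rintro rfl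
      exact ⟨lv (h n), fst_le_pr _ _, kd (h n), (fst_le_pr _ _).trans (snd_le_pr _ _), aa (h n),
        aa_le _, rfl⟩
    · rintro ⟨l, _, k, _, a, _, e⟩
      exact (pr_inj (pr_inj (pr_inj e).2).2).1.symm

theorem Fun.rk {h : N.M → Vx N.M} (H : Fun h) : D0 (fun v => v 1 = rk (h (v 0))) := by
  refine fn_of (φ := fun n => cod (h n)) (ψ := fun n => IRT.rk (h n)) H
    (R := fun c y => ∃ l, l ≤ c ∧ ∃ k, k ≤ c ∧ ∃ t, t ≤ c ∧ ∃ a, a ≤ c ∧
    (c = pr l (pr k (pr t a)) ∧ y = 3 * t + l)) ?_ ?_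
  · refine D0.bexLe (Tm.var 0) (D0.bexLe (Tm.var 1) (D0.bexLe (Tm.var 2) (D0.bexLe (Tm.var 3)
      (D0.and ?_ ?_))))
    · exact D0.eq (Tm.var 4) ((Tm.var 3).pr ((Tm.var 2).pr ((Tm.var 1).pr (Tm.var 0))))
    · exact D0.eq (Tm.var 5) (((Tm.const 3).mul (Tm.var 1)).add (Tm.var 3))
  · intro n y
    constructor
    · rintro rfl
      exact ⟨lv (h n), fst_le_pr _ _, kd (h n), (fst_le_pr _ _).trans (snd_le_pr _ _),
        IRT.tt (h n), tt_le _, aa (h n), aa_le _, rfl, rfl⟩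
    · rintro ⟨l, _, k, _, t, _, a, _, e, e'⟩
      obtain ⟨e1, e2⟩ := pr_inj e
      obtain ⟨e2, e3⟩ := pr_inj e2
      obtain ⟨e3, e4⟩ := pr_inj e3
      rw [e', ← e3, ← e1]
      rfl

theorem Fun.isz {h : N.M → Vx N.M} (H : Fun h) : D0 (fun v => ∃ t, h (v 0) = z t) := by
  refine D0.congr (R := fun v => ∃ t, t ≤ cod (h (v 0)) ∧ cod (h (v 0)) = cod (z t)) ?_ ?_
  · exact D0.pfn (P := fun c => ∃ t, t ≤ c ∧ c = cod (z t))
      (D0.bexLe (Tm.var 0) (D0.eq (Tm.var 1) (tcz (Tm.var 0)))) (φ := fun n => cod (h n)) H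
  · intro v
    constructor
    · rintro ⟨t, _, e⟩; exact ⟨t, cod_inj e⟩
    · rintro ⟨t, e⟩; exact ⟨t, by rw [e]; exact tt_le (z t), by rw [e]⟩

theorem Fun.isw {h : N.M → Vx N.M} (H : Fun h) : D0 (fun v => ∃ a t, h (v 0) = w a t) := by
  refine D0.congr (R := fun v => ∃ a, a ≤ cod (h (v 0)) ∧ ∃ t, t ≤ cod (h (v 0)) ∧
    cod (h (v 0)) = cod (w a t)) ?_ ?_
  · exact D0.pfn (P := fun c => ∃ a, a ≤ c ∧ ∃ t, t ≤ c ∧ c = cod (w a t))
      (D0.bexLe (Tm.var 0) (D0.bexLe (Tm.var 1) (D0.eq (Tm.var 2) (tcw (Tm.var 1) (Tm.var 0)))))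
      (φ := fun n => cod (h n)) H
  · intro v
    constructor
    · rintro ⟨a, _, t, _, e⟩; exact ⟨a, t, cod_inj e⟩
    · rintro ⟨a, t, e⟩
      exact ⟨a, by rw [e]; exact aa_le (w a t), t, by rw [e]; exact tt_le (w a t), by rw [e]⟩

theorem Fun.pred {h : N.M → Vx N.M} {P : N.M → Prop} (hP : D0 (fun v => P (v 0)))
    {s : Ctx N → N.M} (hs : Tm s) : D0 (fun v => P (s v)) := hP.pred hs

/-- a forward ray of the model -/
structure FRay (h : N.M → Vx N.M) : Prop where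
  fn : Fun h
  inj : ∀ n m, h n = h m → n = m
  adj : ∀ n, E (h n) (h (n + 1))

variable {h : N.M → Vx N.M}

theorem FRay.hub (H : FRay h) (n : N.M) : ∃ m, n < m ∧ ∃ t, h m = z t := by
  by_contra hcon
  push Not at hcon
  have key : ∀ j, rk (h (n + j)) + j ≤ rk (h n) := by
    intro j
    refine ind_S1 (P := fun j => rk (h (n + j)) + j ≤ rk (h n)) ?_ ?_ ?_ j
    · refine S1.congr (R := fun v => ∃ y, y = rk (h (n + v 0)) ∧ y + v 0 ≤ rk (h n)) ?_
        fun v => by simp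
      refine S1.ex (S1.and ?_ ?_)
      · exact (D0.fn (φ := fun m => rk (h m)) H.fn.rk ((Tm.const n).add (Tm.var 1))
          (Tm.var 0)).S1
      · exact (D0.le ((Tm.var 0).add (Tm.var 1)) (Tm.const _)).S1
    · rw [add_zero, add_zero]
    · intro j ih
      rcases rk_lt (H.adj (n + j)) with ⟨t, ht⟩ | h1
      · exact absurd ht (hcon _ (lt_add_one_iff'.2 (le_add_of_nonneg_right (zero_le' _))) t)
      · have h2 : rk (h (n + j + 1)) + 1 ≤ rk (h (n + j)) := add_one_le_iff'.2 h1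
        calc rk (h (n + (j + 1))) + (j + 1) = rk (h (n + j + 1)) + 1 + j := by
              rw [← add_assoc n j 1]; ring
          _ ≤ rk (h (n + j)) + j := by gcongr
          _ ≤ _ := ih
  have h1 := key (rk (h n) + 1)
  have h2 : rk (h n) + 1 ≤ rk (h n) := le_trans (le_add_of_nonneg_left (zero_le' _)) h1
  exact absurd (lt_succ (rk (h n))) (not_lt_of_ge h2)

theorem FRay.next (H : FRay h) {n t : N.M} (hn : h n = z t) : ∃ m, n < m ∧ h m = z (t + 1) := by
  by_contra hcon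
  push Not at hcon
  have key : ∀ j, tt (h (n + j)) ≤ t := by
    intro j
    refine ind_S1 (P := fun j => tt (h (n + j)) ≤ t) ?_ ?_ ?_ j
    · refine S1.congr (R := fun v => ∃ y, y = tt (h (n + v 0)) ∧ y ≤ t) ?_
        fun v => by simp
      refine S1.ex (S1.and ?_ ?_)
      · exact (D0.fn (φ := fun m => tt (h m)) H.fn.tt ((Tm.const n).add (Tm.var 1))
          (Tm.var 0)).S1
      · exact (D0.le (Tm.var 0) (Tm.const _)).S1
    · rw [add_zero, hn]; exact le_rfl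
    · intro j ih
      rw [← add_assoc]
      rcases tt_le_succ (H.adj (n + j)) with h1 | h1
      · exact h1.trans ih
      · rw [h1]
        show tt (h (n + j)) + 1 ≤ t
        rcases lt_or_eq_of_le ih with h2 | h2
        · exact add_one_le_iff'.2 h2
        · rw [h2] at h1
          exact absurd h1 (hcon _ (lt_add_one_iff'.2 (le_add_of_nonneg_right (zero_le' _))))
  obtain ⟨m, ⟨hm, s, hs⟩, hm2⟩ := php (S := fun m => n < m ∧ ∃ s, h m = z s)
    (D0.and (D0.lt (Tm.const n) (Tm.var 0)) H.fn.isz) (φ := fun m => tt (h m)) H.fn.tt (by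
      rintro i j ⟨_, s, hs⟩ ⟨_, s', hs'⟩ he
      simp only [hs, hs'] at he
      have he' : s = s' := he
      subst he'
      exact H.inj _ _ (hs.trans hs'.symm)) (by
      intro K
      obtain ⟨m, hm, hz⟩ := H.hub (max K n)
      exact ⟨m, (le_max_left _ _).trans hm.le, lt_of_le_of_lt (le_max_right _ _) hm, hz⟩) (t + 1)
  obtain ⟨c, rfl⟩ := gt_add hm
  have := key (c + 1)
  rw [← add_assoc] at this
  exact absurd (add_one_le_iff'.1 hm2) (not_lt_of_ge this)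

theorem FRay.all' (H : FRay h) {n t : N.M} (hn : h n = z t) (d : N.M) :
    ∃ m, n ≤ m ∧ h m = z (t + d) := by
  refine ind_S1 (P := fun d => ∃ m, n ≤ m ∧ h m = z (t + d)) ?_ ?_ ?_ d
  · refine S1.ex (D0.S1 (D0.and (D0.le (Tm.const n) (Tm.var 0)) ?_))
    exact H.fn.eqz (Tm.var 0) ((Tm.const t).add (Tm.var 1))
  · exact ⟨n, le_rfl, by rw [add_zero]; exact hn⟩
  · rintro d ⟨m, hm, h1⟩
    obtain ⟨m', hm', h2⟩ := H.next h1
    exact ⟨m', hm.trans hm'.le, by rw [← add_assoc]; exact h2⟩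

theorem FRay.all (H : FRay h) {n t T : N.M} (hn : h n = z t) (hT : t ≤ T) :
    ∃ m, n ≤ m ∧ h m = z T := by
  obtain ⟨d, rfl⟩ := ge_add hT
  exact H.all' hn d

theorem FRay.all_lt (H : FRay h) {n t T : N.M} (hn : h n = z t) (hT : t < T) :
    ∃ m, n < m ∧ h m = z T := by
  obtain ⟨m, hm, h1⟩ := H.all hn hT.le
  refine ⟨m, lt_of_le_of_ne hm ?_, h1⟩
  rintro rfl
  have : z t = z T := hn.symm.trans h1
  injection this with e
  exact absurd hT (e ▸ lt_irrefl _)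

/-- from a vertex `w b s` the ray goes to a hub `z s'` with `s' ≤ s` -/
theorem FRay.down (H : FRay h) {m b s : N.M} (hm : h m = w b s) :
    ∃ m', m < m' ∧ ∃ s', s' ≤ s ∧ h m' = z s' := by
  have key : ∀ j, tt (h (m + 1 + j)) + 1 ≤ s ∨
      ∃ i, i ≤ j ∧ ∃ s', s' ≤ s ∧ h (m + 1 + i) = z s' := by
    intro j
    refine ind_S1 (P := fun j => tt (h (m + 1 + j)) + 1 ≤ s ∨
      ∃ i, i ≤ j ∧ ∃ s', s' ≤ s ∧ h (m + 1 + i) = z s') ?_ ?_ ?_ j
    · refine S1.or ?_ (D0.S1 (D0.bexLe (Tm.var 0) (D0.bexLe (Tm.const s) ?_)))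
      · refine S1.congr (R := fun v => ∃ y, y = tt (h (m + 1 + v 0)) ∧ y + 1 ≤ s) ?_
          fun v => by simp
        refine S1.ex (S1.and ?_ ?_)
        · exact (D0.fn (φ := fun m => tt (h m)) H.fn.tt ((Tm.const (m + 1)).add (Tm.var 1))
            (Tm.var 0)).S1
        · exact (D0.le ((Tm.var 0).add Tm.one) (Tm.const _)).S1
      · exact H.fn.eqz ((Tm.const (m + 1)).add (Tm.var 1)) (Tm.var 0)
    · rw [add_zero]
      have h1 := H.adj m
      rw [hm] at h1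
      rcases succ_w h1 with h2 | ⟨t', rfl, ⟨h2, _⟩ | ⟨h2, _⟩⟩
      · exact Or.inr ⟨0, le_rfl, 0, zero_le' _, by rw [add_zero]; exact h2⟩
      · exact Or.inl (by rw [h2]; exact le_rfl)
      · exact Or.inl (by rw [h2]; exact le_rfl)
    · rintro j (ih | ⟨i, hi, s', hs', h1⟩)
      · rcases tt_le_succ (H.adj (m + 1 + j)) with h1 | h1
        · left
          rw [← add_assoc]
          exact (add_le_add_left h1 1).trans ih
        · exact Or.inr ⟨j + 1, le_rfl, _, ih, by rw [← add_assoc]; exact h1⟩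
      · exact Or.inr ⟨i, hi.trans (lt_succ j).le, s', hs', h1⟩
  obtain ⟨m', hm', t, ht⟩ := H.hub m
  obtain ⟨c, rfl⟩ := gt_add hm'
  have e : m + c + 1 = m + 1 + c := by ring
  rw [e] at ht
  rcases key c with h1 | ⟨i, hi, s', hs', h1⟩
  · rw [ht] at h1
    have h1 : t + 1 ≤ s := h1
    exact ⟨m + 1 + c, by rw [← e]; exact hm', t, (lt_succ t).le.trans h1, ht⟩
  · refine ⟨m + 1 + i, ?_, s', hs', h1⟩
    exact lt_of_lt_of_le (lt_succ m) (le_add_of_nonneg_right (zero_le' _))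

/-- predecessors of positions -/
theorem pos_pred {n m : N.M} (h : n < m) : ∃ k, m = k + 1 ∧ n ≤ k := by
  obtain ⟨c, rfl⟩ := gt_add h
  exact ⟨n + c, rfl, le_add_of_nonneg_right (zero_le' _)⟩

/-- no vertex `w b s` follows a hub -/
theorem FRay.no_w (H : FRay h) {n t : N.M} (hn : h n = z t) {m : N.M} (hm : n < m) (b s : N.M) :
    h m ≠ w b s := by
  intro hw
  obtain ⟨m, _, ⟨hnm, b, s, hw⟩, hmin⟩ := lnp_D0
    (P := fun m => n < m ∧ ∃ b s, h m = w b s)
    (D0.and (D0.lt (Tm.const n) (Tm.var 0)) H.fn.isw) m ⟨hm, b, s, hw⟩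
  have hmin' : ∀ k, n < k → k < m → ∀ b s, h k ≠ w b s := fun k hk hkm b s hk2 =>
    hmin k hkm ⟨hk, b, s, hk2⟩
  -- a step back from a position above `n`
  have step : ∀ k, n < k → ∃ k', k = k' + 1 ∧ n ≤ k' ∧ E (h k') (h k) := by
    intro k hk
    obtain ⟨k', rfl, hk'⟩ := pos_pred hk
    exact ⟨k', rfl, hk', H.adj k'⟩
  have ne : ∀ k v, h k = v → (∀ s, v ≠ z s) → n ≤ k → n < k := by
    intro k v hk hv hnk
    refine lt_of_le_of_ne hnk ?_
    rintro rfl
    exact hv t (hk.symm.trans hn)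
  -- `y` is impossible
  have noy : ∀ k a t, n < k → k < m → h k ≠ y a t := by
    intro k a t hk hkm hy
    obtain ⟨k', rfl, hk', hE⟩ := step k hk
    rw [hy] at hE
    have h1 := pred_y hE
    have h2 := ne k' _ h1 (by intro s; simp) hk'
    exact hmin' k' h2 ((lt_succ k').trans hkm) _ _ h1
  have hback : ∃ m3, m3 < m ∧ h m3 = z s := by
    obtain ⟨m1, rfl, hm1, hE⟩ := step m hnm
    rw [hw] at hE
    have hm1m : m1 < m1 + 1 := lt_succ m1
    rcases pred_w hE with ⟨h1, _⟩ | ⟨h1, _⟩ | h1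
    · have hn1 := ne m1 _ h1 (by intro s; simp) hm1
      obtain ⟨m2, rfl, hm2, hE2⟩ := step m1 hn1
      rw [h1] at hE2
      rcases pred_r hE2 with ⟨a, h2⟩ | ⟨a, h2, _⟩
      · have hn2 := ne m2 _ h2 (by intro s; simp) hm2
        obtain ⟨m3, rfl, hm3, hE3⟩ := step m2 hn2
        rw [h2] at hE3
        exact ⟨m3, (lt_succ m3).trans ((lt_succ _).trans hm1m), pred_u hE3⟩
      · have hn2 := ne m2 _ h2 (by intro s; simp) hm2
        exact absurd h2 (noy m2 _ _ hn2 ((lt_succ m2).trans hm1m))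
    · have hn1 := ne m1 _ h1 (by intro s; simp) hm1
      obtain ⟨m2, rfl, hm2, hE2⟩ := step m1 hn1
      rw [h1] at hE2
      have h2 := pred_q hE2
      have hn2 := ne m2 _ h2 (by intro s; simp) hm2
      obtain ⟨m3, rfl, hm3, hE3⟩ := step m2 hn2
      rw [h2] at hE3
      rcases pred_p hE3 with h3 | ⟨a, h3, _⟩
      · exact ⟨m3, (lt_succ m3).trans ((lt_succ _).trans hm1m), h3⟩
      · have hn3 := ne m3 _ h3 (by intro s; simp) hm3
        exact absurd h3 (hmin' m3 hn3 ((lt_succ m3).trans ((lt_succ _).trans hm1m)) _ _)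
    · have hn1 := ne m1 _ h1 (by intro s; simp) hm1
      obtain ⟨m2, rfl, hm2, hE2⟩ := step m1 hn1
      rw [h1] at hE2
      have h2 := pred_y' hE2
      have hn2 := ne m2 _ h2 (by intro s; simp) hm2
      exact absurd h2 (noy m2 _ _ hn2 ((lt_succ m2).trans hm1m))
  obtain ⟨m3, hm3, hz3⟩ := hback
  obtain ⟨m', hm', s', hs', hz'⟩ := H.down hw
  obtain ⟨m'', hm'', hz''⟩ := H.all hz' hs'
  have := H.inj _ _ (hz3.trans hz''.symm)
  rw [this] at hm3
  exact absurd (hm3.trans (lt_of_lt_of_le hm' hm'')) (lt_irrefl _)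

end Pool.Agent.KS6_46.IRT
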