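import Mathlib
import Pool.Graph.R_pool_sql_team_seeded_1acbe0a2.Y548.HV.Defs
import Pool.Agent.KS6_46.IRT.Fwd

/-!
The canonical double rays of the digraph inside a model of `RCA₀`, and the set of its edges.
-/

set_option autoImplicit false
set_option linter.unusedSectionVars false
set_option linter.unusedVariables false

namespace Pool.Agent.KS6_46.IRT

open Pool.Agent.Helper617.RM Vx

universe u

variable {N : L2Structure.{u}} [IsModelRCA0 N]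

/-- `v` is the `n`-th vertex of the canonical double ray of type `a` -/
def FR (a n : N.M) (v : Vx N.M) : Prop := ∃ t, (n = 4 * t ∧ v = z t) ∨
  (n = 4 * t + 1 ∧ ((IA t a ∧ v = p t) ∨ (¬ IA t a ∧ v = u t a))) ∨
  (n = 4 * t + 2 ∧ ((IA t a ∧ v = q t) ∨ (¬ IA t a ∧ v = r t))) ∨
  (n = 4 * t + 3 ∧ v = x t a)

/-- `v` is the `-n`-th vertex of the canonical double ray of type `a` -/
def BR (a n : N.M) (v : Vx N.M) : Prop := (n = 0 ∧ v = z 0) ∨ ∃ t, (n = 3 * t + 1 ∧ v = w a t) ∨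
  (n = 3 * t + 2 ∧ ((IA t a ∧ v = r t) ∨ (IB t a ∧ v = q t) ∨
    ((¬ IA t a ∧ ¬ IB t a) ∧ v = y' a t))) ∨
  (n = 3 * t + 3 ∧ ((IB t a ∧ v = p t) ∨ (¬ IB t a ∧ v = y a t)))

lemma l04 : (0 : N.M) < 4 := by norm_num
lemma l14 : (1 : N.M) < 4 := by norm_num
lemma l24 : (2 : N.M) < 4 := by norm_num
lemma l34 : (3 : N.M) < 4 := by norm_num
lemma l03 : (0 : N.M) < 3 := by norm_num
lemma l13 : (1 : N.M) < 3 := by norm_num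
lemma l23 : (2 : N.M) < 3 := by norm_num

theorem FR_ex (a n : N.M) : ∃ v, FR a n v := by
  classical
  obtain ⟨t, h | h | h | h⟩ := div4 n
  · exact ⟨_, t, Or.inl ⟨h, rfl⟩⟩
  · by_cases h' : IA t a
    · exact ⟨_, t, Or.inr (Or.inl ⟨h, Or.inl ⟨h', rfl⟩⟩)⟩
    · exact ⟨_, t, Or.inr (Or.inl ⟨h, Or.inr ⟨h', rfl⟩⟩)⟩
  · by_cases h' : IA t a
    · exact ⟨_, t, Or.inr (Or.inr (Or.inl ⟨h, Or.inl ⟨h', rfl⟩⟩))⟩
    · exact ⟨_, t, Or.inr (Or.inr (Or.inl ⟨h, Or.inr ⟨h', rfl⟩⟩))⟩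
  · exact ⟨_, t, Or.inr (Or.inr (Or.inr ⟨h, rfl⟩))⟩

theorem BR_ex (a n : N.M) : ∃ v, BR a n v := by
  classical
  rcases eq_zero_or_succ n with rfl | ⟨n, rfl⟩
  · exact ⟨_, Or.inl ⟨rfl, rfl⟩⟩
  · obtain ⟨t, h | h | h⟩ := div3 n
    · exact ⟨_, Or.inr ⟨t, Or.inl ⟨by rw [h], rfl⟩⟩⟩
    · have e : n + 1 = 3 * t + 2 := by rw [h]; ring
      by_cases h1 : IA t a
      · exact ⟨_, Or.inr ⟨t, Or.inr (Or.inl ⟨e, Or.inl ⟨h1, rfl⟩⟩)⟩⟩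
      · by_cases h2 : IB t a
        · exact ⟨_, Or.inr ⟨t, Or.inr (Or.inl ⟨e, Or.inr (Or.inl ⟨h2, rfl⟩)⟩)⟩⟩
        · exact ⟨_, Or.inr ⟨t, Or.inr (Or.inl ⟨e, Or.inr (Or.inr ⟨⟨h1, h2⟩, rfl⟩)⟩)⟩⟩
    · have e : n + 1 = 3 * t + 3 := by rw [h]; ring
      by_cases h2 : IB t a
      · exact ⟨_, Or.inr ⟨t, Or.inr (Or.inr ⟨e, Or.inl ⟨h2, rfl⟩⟩)⟩⟩
      · exact ⟨_, Or.inr ⟨t, Or.inr (Or.inr ⟨e, Or.inr ⟨h2, rfl⟩⟩)⟩⟩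

/-- normal form: quotient and remainder -/
theorem dm4 {t t' j j' : N.M} (h : 4 * t + j = 4 * t' + j') (hj : j < 4) (hj' : j' < 4) :
    t = t' ∧ j = j' := divmod hj hj' h

theorem dm3 {t t' j j' : N.M} (h : 3 * t + j = 3 * t' + j') (hj : j < 3) (hj' : j' < 3) :
    t = t' ∧ j = j' := divmod hj hj' h

theorem FR0 {a t : N.M} {v : Vx N.M} (h : FR a (4 * t) v) : v = z t := by
  obtain ⟨t', ⟨e, h⟩ | ⟨e, h⟩ | ⟨e, h⟩ | ⟨e, h⟩⟩ := h <;> rw [← add_zero (4 * t)] at e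
  · rw [← add_zero (4 * t')] at e
    rw [(dm4 e l04 l04).1]; exact h
  · exact absurd (dm4 e l04 l14).2 (by norm_num)
  · exact absurd (dm4 e l04 l24).2 (by norm_num)
  · exact absurd (dm4 e l04 l34).2 (by norm_num)

theorem FR1 {a t : N.M} {v : Vx N.M} (h : FR a (4 * t + 1) v) :
    (IA t a ∧ v = p t) ∨ (¬ IA t a ∧ v = u t a) := by
  obtain ⟨t', ⟨e, h⟩ | ⟨e, h⟩ | ⟨e, h⟩ | ⟨e, h⟩⟩ := h
  · rw [← add_zero (4 * t')] at e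
    exact absurd (dm4 e l14 l04).2 (by norm_num)
  · rw [(dm4 e l14 l14).1]; exact h
  · exact absurd (dm4 e l14 l24).2 (by norm_num)
  · exact absurd (dm4 e l14 l34).2 (by norm_num)

theorem FR2 {a t : N.M} {v : Vx N.M} (h : FR a (4 * t + 2) v) :
    (IA t a ∧ v = q t) ∨ (¬ IA t a ∧ v = r t) := by
  obtain ⟨t', ⟨e, h⟩ | ⟨e, h⟩ | ⟨e, h⟩ | ⟨e, h⟩⟩ := h
  · rw [← add_zero (4 * t')] at e
    exact absurd (dm4 e l24 l04).2 (by norm_num)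
  · exact absurd (dm4 e l24 l14).2 (by norm_num)
  · rw [(dm4 e l24 l24).1]; exact h
  · exact absurd (dm4 e l24 l34).2 (by norm_num)

theorem FR3 {a t : N.M} {v : Vx N.M} (h : FR a (4 * t + 3) v) : v = x t a := by
  obtain ⟨t', ⟨e, h⟩ | ⟨e, h⟩ | ⟨e, h⟩ | ⟨e, h⟩⟩ := h
  · rw [← add_zero (4 * t')] at e
    exact absurd (dm4 e l34 l04).2 (by norm_num)
  · exact absurd (dm4 e l34 l14).2 (by norm_num)
  · exact absurd (dm4 e l34 l24).2 (by norm_num)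
  · rw [(dm4 e l34 l34).1]; exact h

theorem s4 (t : N.M) : 4 * t + 3 + 1 = 4 * (t + 1) := by ring
theorem s42 (t : N.M) : 4 * t + 1 + 1 = 4 * t + 2 := by ring
theorem s43 (t : N.M) : 4 * t + 2 + 1 = 4 * t + 3 := by ring
theorem s32 (t : N.M) : 3 * t + 1 + 1 = 3 * t + 2 := by ring
theorem s33 (t : N.M) : 3 * t + 2 + 1 = 3 * t + 3 := by ring
theorem s34 (t : N.M) : 3 * t + 3 + 1 = 3 * (t + 1) + 1 := by ring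

theorem FR_uniq {a n : N.M} {v v' : Vx N.M} (h : FR a n v) (h' : FR a n v') : v = v' := by
  obtain ⟨t, rfl | rfl | rfl | rfl⟩ := div4 n
  · rw [FR0 h, FR0 h']
  · rcases FR1 h with ⟨h1, h2⟩ | ⟨h1, h2⟩ <;> rcases FR1 h' with ⟨h3, h4⟩ | ⟨h3, h4⟩ <;>
      first | exact h2.trans h4.symm | exact absurd h1 h3 | exact absurd h3 h1
  · rcases FR2 h with ⟨h1, h2⟩ | ⟨h1, h2⟩ <;> rcases FR2 h' with ⟨h3, h4⟩ | ⟨h3, h4⟩ <;>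
      first | exact h2.trans h4.symm | exact absurd h1 h3 | exact absurd h3 h1
  · rw [FR3 h, FR3 h']

theorem FR_adj {a n : N.M} {v v' : Vx N.M} (h : FR a n v) (h' : FR a (n + 1) v') :
    Arc a v v' := by
  obtain ⟨t, rfl | rfl | rfl | rfl⟩ := div4 n
  · have h1 := FR0 h
    subst h1
    rcases FR1 h' with ⟨h3, rfl⟩ | ⟨h3, rfl⟩
    · exact Arc.zp _ _ h3
    · exact Arc.zu _ _ h3
  · rw [s42] at h'
    rcases FR1 h with ⟨h1, rfl⟩ | ⟨h1, rfl⟩ <;> rcases FR2 h' with ⟨h3, rfl⟩ | ⟨h3, rfl⟩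
    · exact Arc.pqA _ _ h1
    · exact absurd h1 h3
    · exact absurd h3 h1
    · exact Arc.ur _ _ h1
  · rw [s43] at h'
    have h1 := FR3 h'
    subst h1
    rcases FR2 h with ⟨h1, rfl⟩ | ⟨h1, rfl⟩
    · exact Arc.qx _ _ h1
    · exact Arc.rx _ _ h1
  · rw [s4] at h'
    have h1 := FR3 h
    have h2 := FR0 h'
    subst h1 h2
    exact Arc.xz _ _ _ rfl

theorem BR0 {a : N.M} {v : Vx N.M} (h : BR a 0 v) : v = z 0 := by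
  rcases h with ⟨_, h⟩ | ⟨t, ⟨e, _⟩ | ⟨e, _⟩ | ⟨e, _⟩⟩
  · exact h
  · exact absurd e.symm (succ_ne_zero' _)
  · rw [← s32] at e; exact absurd e.symm (succ_ne_zero' _)
  · rw [← s33] at e; exact absurd e.symm (succ_ne_zero' _)

theorem m31 (t : N.M) : 3 * t + 1 = (3 * t + 0) + 1 := by ring
theorem m32 (t : N.M) : 3 * t + 2 = (3 * t + 1) + 1 := by ring
theorem m33 (t : N.M) : 3 * t + 3 = (3 * t + 2) + 1 := by ring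

theorem BR1 {a t : N.M} {v : Vx N.M} (h : BR a (3 * t + 1) v) : v = w a t := by
  rcases h with ⟨h, _⟩ | ⟨t', ⟨e, h⟩ | ⟨e, h⟩ | ⟨e, h⟩⟩
  · exact absurd h (succ_ne_zero' _)
  · rw [m31 t, m31 t'] at e
    rw [(dm3 (add_cancel' e) l03 l03).1]; exact h
  · rw [m31 t, m32 t'] at e
    exact absurd (dm3 (add_cancel' e) l03 l13).2 (by norm_num)
  · rw [m31 t, m33 t'] at e
    exact absurd (dm3 (add_cancel' e) l03 l23).2 (by norm_num)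

theorem BR2 {a t : N.M} {v : Vx N.M} (h : BR a (3 * t + 2) v) :
    (IA t a ∧ v = r t) ∨ (IB t a ∧ v = q t) ∨ ((¬ IA t a ∧ ¬ IB t a) ∧ v = y' a t) := by
  rcases h with ⟨h, _⟩ | ⟨t', ⟨e, h⟩ | ⟨e, h⟩ | ⟨e, h⟩⟩
  · rw [m32] at h; exact absurd h (succ_ne_zero' _)
  · rw [m32 t, m31 t'] at e
    exact absurd (dm3 (add_cancel' e) l13 l03).2 (by norm_num)
  · rw [m32 t, m32 t'] at e
    rw [(dm3 (add_cancel' e) l13 l13).1]; exact h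
  · rw [m32 t, m33 t'] at e
    exact absurd (dm3 (add_cancel' e) l13 l23).2 (by norm_num)

theorem BR3 {a t : N.M} {v : Vx N.M} (h : BR a (3 * t + 3) v) :
    (IB t a ∧ v = p t) ∨ (¬ IB t a ∧ v = y a t) := by
  rcases h with ⟨h, _⟩ | ⟨t', ⟨e, h⟩ | ⟨e, h⟩ | ⟨e, h⟩⟩
  · rw [m33] at h; exact absurd h (succ_ne_zero' _)
  · rw [m33 t, m31 t'] at e
    exact absurd (dm3 (add_cancel' e) l23 l03).2 (by norm_num)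
  · rw [m33 t, m32 t'] at e
    exact absurd (dm3 (add_cancel' e) l23 l13).2 (by norm_num)
  · rw [m33 t, m33 t'] at e
    rw [(dm3 (add_cancel' e) l23 l23).1]; exact h

theorem div3' (n : N.M) :
    n = 0 ∨ ∃ t, n = 3 * t + 1 ∨ n = 3 * t + 2 ∨ n = 3 * t + 3 := by
  rcases eq_zero_or_succ n with h | ⟨n, rfl⟩
  · exact Or.inl h
  · obtain ⟨t, h | h | h⟩ := div3 n
    · exact Or.inr ⟨t, Or.inl (by rw [h])⟩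
    · exact Or.inr ⟨t, Or.inr (Or.inl (by rw [h]; ring))⟩
    · exact Or.inr ⟨t, Or.inr (Or.inr (by rw [h]; ring))⟩

theorem BR_uniq {a n : N.M} {v v' : Vx N.M} (h : BR a n v) (h' : BR a n v') : v = v' := by
  obtain rfl | ⟨t, rfl | rfl | rfl⟩ := div3' n
  · rw [BR0 h, BR0 h']
  · rw [BR1 h, BR1 h']
  · rcases BR2 h with ⟨h1, h2⟩ | ⟨h1, h2⟩ | ⟨h1, h2⟩ <;>
      rcases BR2 h' with ⟨h3, h4⟩ | ⟨h3, h4⟩ | ⟨h3, h4⟩ <;>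
      first | exact h2.trans h4.symm | exact absurd h1 h3.1 | exact absurd h3 h1.1 |
        exact absurd h1 h3.2 | exact absurd h3 h1.2 | exact (IA_not_IB h1 h3).elim |
        exact (IA_not_IB h3 h1).elim
  · rcases BR3 h with ⟨h1, h2⟩ | ⟨h1, h2⟩ <;> rcases BR3 h' with ⟨h3, h4⟩ | ⟨h3, h4⟩ <;>
      first | exact h2.trans h4.symm | exact absurd h1 h3 | exact absurd h3 h1

theorem BR_adj {a n : N.M} {v v' : Vx N.M} (h : BR a (n + 1) v) (h' : BR a n v') :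
    Arc a v v' := by
  obtain rfl | ⟨t, rfl | rfl | rfl⟩ := div3' n
  · have e : (0 : N.M) + 1 = 3 * 0 + 1 := by ring
    rw [e] at h
    rw [BR1 h, BR0 h']
    exact Arc.w0 _ _ _ rfl rfl
  · rw [s32] at h
    rw [BR1 h']
    rcases BR2 h with ⟨h1, rfl⟩ | ⟨h1, rfl⟩ | ⟨h1, rfl⟩
    · exact Arc.rw _ _ h1
    · exact Arc.qw _ _ h1
    · exact Arc.yw _ _
  · rw [s33] at h
    rcases BR3 h with ⟨h1, rfl⟩ | ⟨h1, rfl⟩ <;> rcases BR2 h' with ⟨h3, rfl⟩ | ⟨h3, rfl⟩ | ⟨h3, rfl⟩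
    · exact (IA_not_IB h3 h1).elim
    · exact Arc.pqB _ _ h1
    · exact absurd h1 h3.2
    · exact Arc.yr _ _ h3
    · exact absurd h3 h1
    · exact Arc.yy _ _ h3.1 h3.2
  · rw [s34] at h
    rw [BR1 h]
    rcases BR3 h' with ⟨h1, rfl⟩ | ⟨h1, rfl⟩
    · exact Arc.wp _ _ _ rfl h1
    · exact Arc.wy _ _ _ rfl h1

theorem FR_inj {a n n' : N.M} {v : Vx N.M} (h : FR a n v) (h' : FR a n' v) : n = n' := by
  obtain ⟨t, ⟨e, h⟩ | ⟨e, ⟨_, h⟩ | ⟨_, h⟩⟩ | ⟨e, ⟨_, h⟩ | ⟨_, h⟩⟩ | ⟨e, h⟩⟩ := h <;>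
  obtain ⟨t', ⟨e', h'⟩ | ⟨e', ⟨_, h'⟩ | ⟨_, h'⟩⟩ | ⟨e', ⟨_, h'⟩ | ⟨_, h'⟩⟩ | ⟨e', h'⟩⟩ := h' <;>
  rw [h] at h' <;> first
    | (exfalso; cases h'; done)
    | (cases h'; rw [e, e'])

theorem BR_inj {a n n' : N.M} {v : Vx N.M} (h : BR a n v) (h' : BR a n' v) : n = n' := by
  obtain ⟨e, h⟩ | ⟨t, ⟨e, h⟩ | ⟨e, ⟨_, h⟩ | ⟨_, h⟩ | ⟨_, h⟩⟩ | ⟨e, ⟨_, h⟩ | ⟨_, h⟩⟩⟩ := h <;>
  obtain ⟨e', h'⟩ | ⟨t', ⟨e', h'⟩ | ⟨e', ⟨_, h'⟩ | ⟨_, h'⟩ | ⟨_, h'⟩⟩ | ⟨e', ⟨_, h'⟩ | ⟨_, h'⟩⟩⟩ := h' <;>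
  rw [h] at h' <;> first
    | (rw [e, e']; done)
    | (exfalso; cases h'; done)
    | (cases h'; rw [e, e'])

theorem FR_BR {a n n' : N.M} {v : Vx N.M} (h : FR a n v) (h' : BR a n' v) : n = 0 ∧ n' = 0 := by
  obtain ⟨t, ⟨e, h⟩ | ⟨e, ⟨c, h⟩ | ⟨c, h⟩⟩ | ⟨e, ⟨c, h⟩ | ⟨c, h⟩⟩ | ⟨e, h⟩⟩ := h <;>
  obtain ⟨e', h'⟩ | ⟨t', ⟨e', h'⟩ | ⟨e', ⟨c', h'⟩ | ⟨c', h'⟩ | ⟨c', h'⟩⟩ |
    ⟨e', ⟨c', h'⟩ | ⟨c', h'⟩⟩⟩ := h' <;>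
  rw [h] at h' <;> first
    | (exfalso; cases h'; done)
    | (cases h'; exact (IA_not_IB c c').elim)
    | (cases h'; exact absurd c' c)
    | (injection h' with h1; subst h1; exact ⟨by rw [e, mul_zero], e'⟩)

/-! ### the functions -/

noncomputable def fwd (a n : N.M) : Vx N.M := (FR_ex a n).choose
noncomputable def bwd (a n : N.M) : Vx N.M := (BR_ex a n).choose

theorem fwd_spec (a n : N.M) : FR a n (fwd a n) := (FR_ex a n).choose_spec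
theorem bwd_spec (a n : N.M) : BR a n (bwd a n) := (BR_ex a n).choose_spec

def C1 (a n c : N.M) : Prop := ∃ t, t ≤ n ∧ ((n = 4 * t ∧ c = cod (z t)) ∨
  (n = 4 * t + 1 ∧ ((IA t a ∧ c = cod (p t)) ∨ (¬ IA t a ∧ c = cod (u t a)))) ∨
  (n = 4 * t + 2 ∧ ((IA t a ∧ c = cod (q t)) ∨ (¬ IA t a ∧ c = cod (r t)))) ∨
  (n = 4 * t + 3 ∧ c = cod (x t a)))

def C2 (a n c : N.M) : Prop := (n = 0 ∧ c = cod (z 0)) ∨ ∃ t, t ≤ n ∧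
  ((n = 3 * t + 1 ∧ c = cod (w a t)) ∨
  (n = 3 * t + 2 ∧ ((IA t a ∧ c = cod (r t)) ∨ (IB t a ∧ c = cod (q t)) ∨
    ((¬ IA t a ∧ ¬ IB t a) ∧ c = cod (y' a t)))) ∨
  (n = 3 * t + 3 ∧ ((IB t a ∧ c = cod (p t)) ∨ (¬ IB t a ∧ c = cod (y a t)))))

theorem C1_D0 : D0 (fun v : Ctx N => C1 (v 0) (v 1) (v 2)) := by
  refine D0.bexLe (Tm.var 1) (D0.or (D0.and ?_ ?_) (D0.or (D0.and ?_ (D0.or (D0.and ?_ ?_)
    (D0.and ?_ ?_))) (D0.or (D0.and ?_ (D0.or (D0.and ?_ ?_) (D0.and ?_ ?_))) (D0.and ?_ ?_))))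
  · exact D0.eq (Tm.var 2) ((Tm.const 4).mul (Tm.var 0))
  · exact D0.eq (Tm.var 3) (tcz (Tm.var 0))
  · exact D0.eq (Tm.var 2) (((Tm.const 4).mul (Tm.var 0)).add Tm.one)
  · exact IA_D0 (Tm.var 0) (Tm.var 1)
  · exact D0.eq (Tm.var 3) (tcp (Tm.var 0))
  · exact (IA_D0 (Tm.var 0) (Tm.var 1)).not
  · exact D0.eq (Tm.var 3) (tcu (Tm.var 0) (Tm.var 1))
  · exact D0.eq (Tm.var 2) (((Tm.const 4).mul (Tm.var 0)).add (Tm.const 2))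
  · exact IA_D0 (Tm.var 0) (Tm.var 1)
  · exact D0.eq (Tm.var 3) (tcq (Tm.var 0))
  · exact (IA_D0 (Tm.var 0) (Tm.var 1)).not
  · exact D0.eq (Tm.var 3) (tcr (Tm.var 0))
  · exact D0.eq (Tm.var 2) (((Tm.const 4).mul (Tm.var 0)).add (Tm.const 3))
  · exact D0.eq (Tm.var 3) (tcx (Tm.var 0) (Tm.var 1))

theorem C2_D0 : D0 (fun v : Ctx N => C2 (v 0) (v 1) (v 2)) := by
  refine D0.or (D0.and ?_ ?_) (D0.bexLe (Tm.var 1) (D0.or (D0.and ?_ ?_)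
    (D0.or (D0.and ?_ (D0.or (D0.and ?_ ?_) (D0.or (D0.and ?_ ?_) (D0.and (D0.and ?_ ?_) ?_))))
    (D0.and ?_ (D0.or (D0.and ?_ ?_) (D0.and ?_ ?_))))))
  · exact D0.eq (Tm.var 1) Tm.zero
  · exact D0.eq (Tm.var 2) (Tm.const _)
  · exact D0.eq (Tm.var 2) (((Tm.const 3).mul (Tm.var 0)).add Tm.one)
  · exact D0.eq (Tm.var 3) (tcw (Tm.var 1) (Tm.var 0))
  · exact D0.eq (Tm.var 2) (((Tm.const 3).mul (Tm.var 0)).add (Tm.const 2))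
  · exact IA_D0 (Tm.var 0) (Tm.var 1)
  · exact D0.eq (Tm.var 3) (tcr (Tm.var 0))
  · exact IB_D0 (Tm.var 0) (Tm.var 1)
  · exact D0.eq (Tm.var 3) (tcq (Tm.var 0))
  · exact (IA_D0 (Tm.var 0) (Tm.var 1)).not
  · exact (IB_D0 (Tm.var 0) (Tm.var 1)).not
  · exact D0.eq (Tm.var 3) (tcy' (Tm.var 1) (Tm.var 0))
  · exact D0.eq (Tm.var 2) (((Tm.const 3).mul (Tm.var 0)).add (Tm.const 3))
  · exact IB_D0 (Tm.var 0) (Tm.var 1)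
  · exact D0.eq (Tm.var 3) (tcp (Tm.var 0))
  · exact (IB_D0 (Tm.var 0) (Tm.var 1)).not
  · exact D0.eq (Tm.var 3) (tcy (Tm.var 1) (Tm.var 0))

theorem le_c (c t j : N.M) (hc : 1 ≤ c) : t ≤ c * t + j := by
  calc t = 1 * t := (one_mul t).symm
    _ ≤ c * t := by gcongr
    _ ≤ c * t + j := le_add_of_nonneg_right (zero_le' _)

theorem C1_iff {a n c : N.M} : C1 a n c ↔ c = cod (fwd a n) := by
  have h14 : (1 : N.M) ≤ 4 := by norm_num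
  constructor
  · rintro ⟨t, _, h⟩
    have key : ∃ v, c = cod v ∧ FR a n v := by
      rcases h with ⟨e, h⟩ | ⟨e, ⟨b, h⟩ | ⟨b, h⟩⟩ | ⟨e, ⟨b, h⟩ | ⟨b, h⟩⟩ | ⟨e, h⟩
      · exact ⟨_, h, t, Or.inl ⟨e, rfl⟩⟩
      · exact ⟨_, h, t, Or.inr (Or.inl ⟨e, Or.inl ⟨b, rfl⟩⟩)⟩
      · exact ⟨_, h, t, Or.inr (Or.inl ⟨e, Or.inr ⟨b, rfl⟩⟩)⟩
      · exact ⟨_, h, t, Or.inr (Or.inr (Or.inl ⟨e, Or.inl ⟨b, rfl⟩⟩))⟩
      · exact ⟨_, h, t, Or.inr (Or.inr (Or.inl ⟨e, Or.inr ⟨b, rfl⟩⟩))⟩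
      · exact ⟨_, h, t, Or.inr (Or.inr (Or.inr ⟨e, rfl⟩))⟩
    obtain ⟨v, rfl, hv⟩ := key
    rw [FR_uniq hv (fwd_spec a n)]
  · rintro rfl
    obtain ⟨t, h⟩ := fwd_spec a n
    rcases h with ⟨e, h⟩ | ⟨e, ⟨b, h⟩ | ⟨b, h⟩⟩ | ⟨e, ⟨b, h⟩ | ⟨b, h⟩⟩ | ⟨e, h⟩ <;> rw [h]
    · exact ⟨t, by rw [e, ← add_zero (4 * t)]; exact le_c _ _ _ h14, Or.inl ⟨e, rfl⟩⟩
    · exact ⟨t, by rw [e]; exact le_c _ _ _ h14, Or.inr (Or.inl ⟨e, Or.inl ⟨b, rfl⟩⟩)⟩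
    · exact ⟨t, by rw [e]; exact le_c _ _ _ h14, Or.inr (Or.inl ⟨e, Or.inr ⟨b, rfl⟩⟩)⟩
    · exact ⟨t, by rw [e]; exact le_c _ _ _ h14, Or.inr (Or.inr (Or.inl ⟨e, Or.inl ⟨b, rfl⟩⟩))⟩
    · exact ⟨t, by rw [e]; exact le_c _ _ _ h14, Or.inr (Or.inr (Or.inl ⟨e, Or.inr ⟨b, rfl⟩⟩))⟩
    · exact ⟨t, by rw [e]; exact le_c _ _ _ h14, Or.inr (Or.inr (Or.inr ⟨e, rfl⟩))⟩

theorem C2_iff {a n c : N.M} : C2 a n c ↔ c = cod (bwd a n) := by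
  have h13 : (1 : N.M) ≤ 3 := by norm_num
  constructor
  · intro h
    have key : ∃ v, c = cod v ∧ BR a n v := by
      rcases h with ⟨e, h⟩ | ⟨t, _, ⟨e, h⟩ | ⟨e, ⟨b, h⟩ | ⟨b, h⟩ | ⟨b, h⟩⟩ | ⟨e, ⟨b, h⟩ | ⟨b, h⟩⟩⟩
      · exact ⟨_, h, Or.inl ⟨e, rfl⟩⟩
      · exact ⟨_, h, Or.inr ⟨t, Or.inl ⟨e, rfl⟩⟩⟩
      · exact ⟨_, h, Or.inr ⟨t, Or.inr (Or.inl ⟨e, Or.inl ⟨b, rfl⟩⟩)⟩⟩
      · exact ⟨_, h, Or.inr ⟨t, Or.inr (Or.inl ⟨e, Or.inr (Or.inl ⟨b, rfl⟩)⟩)⟩⟩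
      · exact ⟨_, h, Or.inr ⟨t, Or.inr (Or.inl ⟨e, Or.inr (Or.inr ⟨b, rfl⟩)⟩)⟩⟩
      · exact ⟨_, h, Or.inr ⟨t, Or.inr (Or.inr ⟨e, Or.inl ⟨b, rfl⟩⟩)⟩⟩
      · exact ⟨_, h, Or.inr ⟨t, Or.inr (Or.inr ⟨e, Or.inr ⟨b, rfl⟩⟩)⟩⟩
    obtain ⟨v, rfl, hv⟩ := key
    rw [BR_uniq hv (bwd_spec a n)]
  · rintro rfl
    rcases bwd_spec a n with ⟨e, h⟩ | ⟨t, ⟨e, h⟩ | ⟨e, ⟨b, h⟩ | ⟨b, h⟩ | ⟨b, h⟩⟩ |
      ⟨e, ⟨b, h⟩ | ⟨b, h⟩⟩⟩ <;> rw [h]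
    · exact Or.inl ⟨e, rfl⟩
    · exact Or.inr ⟨t, by rw [e]; exact le_c _ _ _ h13, Or.inl ⟨e, rfl⟩⟩
    · exact Or.inr ⟨t, by rw [e]; exact le_c _ _ _ h13, Or.inr (Or.inl ⟨e, Or.inl ⟨b, rfl⟩⟩)⟩
    · exact Or.inr ⟨t, by rw [e]; exact le_c _ _ _ h13,
        Or.inr (Or.inl ⟨e, Or.inr (Or.inl ⟨b, rfl⟩)⟩)⟩
    · exact Or.inr ⟨t, by rw [e]; exact le_c _ _ _ h13,
        Or.inr (Or.inl ⟨e, Or.inr (Or.inr ⟨b, rfl⟩)⟩)⟩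
    · exact Or.inr ⟨t, by rw [e]; exact le_c _ _ _ h13, Or.inr (Or.inr ⟨e, Or.inl ⟨b, rfl⟩⟩)⟩
    · exact Or.inr ⟨t, by rw [e]; exact le_c _ _ _ h13, Or.inr (Or.inr ⟨e, Or.inr ⟨b, rfl⟩⟩)⟩

/-! ### the set of edges -/

def EE (N : L2Structure.{u}) [IsModelRCA0 N] : Set N.M :=
  {e | ∃ a, a ≤ e ∧ ∃ n, n ≤ 4 * e + 4 ∧ ∃ c, c ≤ e ∧ ∃ c', c' ≤ e ∧
    (e = pr c c' ∧ ((C1 a n c ∧ C1 a (n + 1) c') ∨ (C2 a (n + 1) c ∧ C2 a n c')))}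

theorem EE_mem : EE N ∈ N.Sets := by
  refine comp_D0 (P := fun e => ∃ a, a ≤ e ∧ ∃ n, n ≤ 4 * e + 4 ∧ ∃ c, c ≤ e ∧ ∃ c', c' ≤ e ∧
    (e = pr c c' ∧ ((C1 a n c ∧ C1 a (n + 1) c') ∨ (C2 a (n + 1) c ∧ C2 a n c')))) ?_
  refine D0.bexLe (Tm.var 0) (D0.bexLe (((Tm.const 4).mul (Tm.var 1)).add (Tm.const 4))
    (D0.bexLe (Tm.var 2) (D0.bexLe (Tm.var 3) (D0.and ?_ (D0.or (D0.and ?_ ?_) (D0.and ?_ ?_))))))
  · exact D0.eq (Tm.var 4) ((Tm.var 1).pr (Tm.var 0))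
  · exact D0.rel3' C1_D0 (Tm.var 3) (Tm.var 2) (Tm.var 1)
  · exact D0.rel3' C1_D0 (Tm.var 3) ((Tm.var 2).add Tm.one) (Tm.var 0)
  · exact D0.rel3' C2_D0 (Tm.var 3) ((Tm.var 2).add Tm.one) (Tm.var 1)
  · exact D0.rel3' C2_D0 (Tm.var 3) (Tm.var 2) (Tm.var 0)

theorem EE_inv {e : N.M} (h : e ∈ EE N) : ∃ v v', e = pr (cod v) (cod v') ∧ E v v' := by
  obtain ⟨a, _, n, _, c, _, c', _, rfl, ⟨h1, h2⟩ | ⟨h1, h2⟩⟩ := h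
  · rw [C1_iff] at h1 h2
    exact ⟨_, _, by rw [h1, h2], a, FR_adj (fwd_spec a n) (fwd_spec a (n + 1))⟩
  · rw [C2_iff] at h1 h2
    exact ⟨_, _, by rw [h1, h2], a, BR_adj (bwd_spec a (n + 1)) (bwd_spec a n)⟩

theorem EE_inv' {c c' : N.M} (h : pr c c' ∈ EE N) : ∃ v v', c = cod v ∧ c' = cod v' ∧ E v v' := by
  obtain ⟨v, v', e, hE⟩ := EE_inv h
  obtain ⟨e1, e2⟩ := pr_inj e
  exact ⟨v, v', e1, e2, hE⟩

theorem Arc.ne {a : N.M} {v v' : Vx N.M} (h : Arc a v v') : v ≠ v' := by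
  rintro rfl
  cases h

theorem Arc.a_le {a : N.M} {v v' : Vx N.M} (h : Arc a v v') : a ≤ pr (cod v) (cod v') := by
  have h1 : cod v ≤ pr (cod v) (cod v') := fst_le_pr _ _
  have h2 : cod v' ≤ pr (cod v) (cod v') := snd_le_pr _ _
  have key : a ≤ tt v ∨ a ≤ aa v ∨ a ≤ aa v' ∨ a ≤ tt v' := by
    cases h with
    | zp t a h => exact Or.inl h.le
    | zu t a h => exact Or.inr (Or.inr (Or.inl le_rfl))
    | ur t a h => exact Or.inr (Or.inl le_rfl)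
    | rx t a h => exact Or.inr (Or.inr (Or.inl le_rfl))
    | xz t t' a e => exact Or.inr (Or.inl le_rfl)
    | pqA t a h => exact Or.inl h.le
    | pqB t a h => exact Or.inl h.le
    | qx t a h => exact Or.inr (Or.inr (Or.inl le_rfl))
    | qw t a h => exact Or.inr (Or.inr (Or.inl le_rfl))
    | rw t a h => exact Or.inr (Or.inr (Or.inl le_rfl))
    | yr t a h => exact Or.inr (Or.inl le_rfl)
    | yy t a h h' => exact Or.inr (Or.inl le_rfl)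
    | yw t a => exact Or.inr (Or.inl le_rfl)
    | wy t t' a e h => exact Or.inr (Or.inl le_rfl)
    | wp t t' a e h => exact Or.inr (Or.inl le_rfl)
    | w0 a t s e e' => exact Or.inr (Or.inl le_rfl)
  rcases key with h | h | h | h
  · exact (h.trans (tt_le v)).trans h1
  · exact (h.trans (aa_le v)).trans h1
  · exact (h.trans (aa_le v')).trans h2
  · exact (h.trans (tt_le v')).trans h2

theorem FR_le {a n : N.M} {v : Vx N.M} (h : FR a n v) : n ≤ 4 * tt v + 4 := by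
  obtain ⟨t, h⟩ := h
  have e1 : 4 * t + 1 ≤ 4 * t + 4 := by gcongr; norm_num
  have e2 : 4 * t + 2 ≤ 4 * t + 4 := by gcongr; norm_num
  have e3 : 4 * t + 3 ≤ 4 * t + 4 := by gcongr; norm_num
  rcases h with ⟨e, h⟩ | ⟨e, ⟨b, h⟩ | ⟨b, h⟩⟩ | ⟨e, ⟨b, h⟩ | ⟨b, h⟩⟩ | ⟨e, h⟩ <;> rw [h, e]
  · exact le_add_of_nonneg_right (zero_le' _)
  · exact e1
  · exact e1
  · exact e2
  · exact e2
  · exact e3

theorem BR_le {a n : N.M} {v : Vx N.M} (h : BR a n v) : n ≤ 4 * tt v + 4 := by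
  have key : ∀ t j : N.M, j ≤ 4 → 3 * t + j ≤ 4 * t + 4 := by
    intro t j hj
    have h34 : (3 : N.M) ≤ 4 := by norm_num
    gcongr
  rcases h with ⟨e, h⟩ | ⟨t, ⟨e, h⟩ | ⟨e, ⟨b, h⟩ | ⟨b, h⟩ | ⟨b, h⟩⟩ | ⟨e, ⟨b, h⟩ | ⟨b, h⟩⟩⟩ <;>
    rw [h, e]
  · exact zero_le' _
  · exact key t 1 (by norm_num)
  · exact key t 2 (by norm_num)
  · exact key t 2 (by norm_num)
  · exact key t 2 (by norm_num)
  · exact key t 3 (by norm_num)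
  · exact key t 3 (by norm_num)

theorem mem_EE_f (a n : N.M) : pr (cod (fwd a n)) (cod (fwd a (n + 1))) ∈ EE N := by
  have h := FR_adj (fwd_spec a n) (fwd_spec a (n + 1))
  refine ⟨a, h.a_le, n, ?_, _, fst_le_pr _ _, _, snd_le_pr _ _, rfl,
    Or.inl ⟨C1_iff.2 rfl, C1_iff.2 rfl⟩⟩
  refine (FR_le (fwd_spec a n)).trans ?_
  have := (tt_le (fwd a n)).trans (fst_le_pr (cod (fwd a n)) (cod (fwd a (n + 1))))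
  gcongr

theorem mem_EE_g (a n : N.M) : pr (cod (bwd a (n + 1))) (cod (bwd a n)) ∈ EE N := by
  have h := BR_adj (bwd_spec a (n + 1)) (bwd_spec a n)
  refine ⟨a, h.a_le, n, ?_, _, fst_le_pr _ _, _, snd_le_pr _ _, rfl,
    Or.inr ⟨C2_iff.2 rfl, C2_iff.2 rfl⟩⟩
  refine (BR_le (bwd_spec a n)).trans ?_
  have := (tt_le (bwd a n)).trans (snd_le_pr (cod (bwd a (n + 1))) (cod (bwd a n)))
  gcongr

end Pool.Agent.KS6_46.IRT
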