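import Mathlib
import Pool.Agent.KS6_46.IRT.Fwd

/-!
Double rays of the digraph inside a model of `RCA₀`: the backward part stays in one lane.
-/

set_option autoImplicit false
set_option linter.unusedSectionVars false
set_option linter.unusedVariables false

namespace Pool.Agent.KS6_46.IRT

open Pool.Agent.Helper617.RM Vx

universe u

variable {N : L2Structure.{u}} [IsModelRCA0 N]

/-- a double ray of the model: `f n` is the `n`-th and `g n` the `-n`-th vertex -/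
structure DRay (f g : N.M → Vx N.M) : Prop where
  ff : Fun f
  fg : Fun g
  zero : f 0 = g 0
  inj_f : ∀ n m, f n = f m → n = m
  inj_g : ∀ n m, g n = g m → n = m
  inj_fg : ∀ n m, f n = g m → n = 0 ∧ m = 0
  adj_f : ∀ n, E (f n) (f (n + 1))
  adj_g : ∀ n, E (g (n + 1)) (g n)

open Classical in
/-- the forward ray that starts at the vertex `-n₀` -/
noncomputable def sh (f g : N.M → Vx N.M) (n₀ j : N.M) : Vx N.M :=
  if h : ∃ d, j + d = n₀ then g h.choose else if h' : ∃ d, n₀ + d = j then f h'.choose else f 0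

theorem sh_g {f g : N.M → Vx N.M} {n₀ j d : N.M} (h : j + d = n₀) : sh f g n₀ j = g d := by
  have hex : ∃ d, j + d = n₀ := ⟨d, h⟩
  unfold sh
  rw [dif_pos hex]
  congr 1
  exact add_left_cancel (hex.choose_spec.trans h.symm)

theorem add_eq_zero' {a b : N.M} (h : a + b = 0) : a = 0 ∧ b = 0 := by
  rcases eq_zero_or_succ b with rfl | ⟨b', rfl⟩
  · exact ⟨by rw [add_zero] at h; exact h, rfl⟩
  · rw [← add_assoc] at h
    exact absurd h (succ_ne_zero' _)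

theorem sh_f {f g : N.M → Vx N.M} (h0 : f 0 = g 0) {n₀ j d : N.M} (h : n₀ + d = j) :
    sh f g n₀ j = f d := by
  by_cases hex : ∃ d, j + d = n₀
  · obtain ⟨e, he⟩ := hex
    rw [sh_g he]
    have h1 : n₀ + (d + e) = n₀ + 0 := by rw [← add_assoc, h, he, add_zero]
    obtain ⟨rfl, rfl⟩ := add_eq_zero' (add_left_cancel h1)
    exact h0.symm
  · have hex' : ∃ d, n₀ + d = j := ⟨d, h⟩
    unfold sh
    rw [dif_neg hex, dif_pos hex']
    congr 1
    exact add_left_cancel (hex'.choose_spec.trans h.symm)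

variable {f g : N.M → Vx N.M}

theorem DRay.sh (H : DRay f g) (n₀ : N.M) : FRay (sh f g n₀) := by
  refine ⟨?_, ?_, ?_⟩
  · refine D0.congr (R := fun v => (∃ d, d ≤ n₀ ∧ (v 0 + d = n₀ ∧ v 1 = cod (g d))) ∨
      (∃ d, d ≤ v 0 ∧ (n₀ + d = v 0 ∧ v 1 = cod (f d)))) ?_ ?_
    · refine D0.or (D0.bexLe (Tm.const n₀) (D0.and ?_ ?_)) (D0.bexLe (Tm.var 0) (D0.and ?_ ?_))
      · exact D0.eq ((Tm.var 1).add (Tm.var 0)) (Tm.const n₀)
      · exact H.fg.fn (Tm.var 0) (Tm.var 2)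
      · exact D0.eq ((Tm.const n₀).add (Tm.var 0)) (Tm.var 1)
      · exact H.ff.fn (Tm.var 0) (Tm.var 2)
    · intro v
      constructor
      · rintro (⟨d, _, h1, h2⟩ | ⟨d, _, h1, h2⟩)
        · rw [h2, sh_g h1]
        · rw [h2, sh_f H.zero h1]
      · intro h
        rcases le_total (v 0) n₀ with h1 | h1
        · obtain ⟨d, hd⟩ := ge_add h1
          refine Or.inl ⟨d, ?_, hd.symm, by rw [h, sh_g hd.symm]⟩
          rw [hd]; exact le_add_of_nonneg_left (zero_le' _)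
        · obtain ⟨d, hd⟩ := ge_add h1
          refine Or.inr ⟨d, ?_, hd.symm, by rw [h, sh_f H.zero hd.symm]⟩
          rw [hd]; exact le_add_of_nonneg_left (zero_le' _)
  · intro n m h
    rcases le_total n n₀ with h1 | h1 <;> rcases le_total m n₀ with h2 | h2 <;>
      obtain ⟨d, hd⟩ := ge_add h1 <;> obtain ⟨e, he⟩ := ge_add h2
    · rw [sh_g hd.symm, sh_g he.symm] at h
      have := H.inj_g _ _ h
      subst this
      exact add_cancel' (hd.symm.trans he)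
    · rw [sh_g hd.symm, sh_f H.zero he.symm] at h
      obtain ⟨rfl, rfl⟩ := H.inj_fg _ _ h.symm
      rw [add_zero] at hd he
      rw [he, hd]
    · rw [sh_f H.zero hd.symm, sh_g he.symm] at h
      obtain ⟨rfl, rfl⟩ := H.inj_fg _ _ h
      rw [add_zero] at hd he
      rw [hd, he]
    · rw [sh_f H.zero hd.symm, sh_f H.zero he.symm] at h
      have := H.inj_f _ _ h
      subst this
      rw [hd, he]
  · intro n
    rcases le_total (n + 1) n₀ with h1 | h1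
    · obtain ⟨d, hd⟩ := ge_add h1
      rw [sh_g hd.symm, sh_g (n₀ := n₀) (j := n) (d := d + 1) (by rw [hd]; ring)]
      exact H.adj_g d
    · rcases lt_or_eq_of_le h1 with h2 | h2
      · obtain ⟨d, hd⟩ := ge_add (lt_add_one_iff'.1 h2)
        rw [sh_f H.zero hd.symm, sh_f H.zero (n₀ := n₀) (j := n + 1) (d := d + 1)
          (by rw [hd]; ring)]
        exact H.adj_f d
      · rw [sh_g (n₀ := n₀) (j := n + 1) (d := 0) (by rw [add_zero]; exact h2.symm),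
          sh_g (n₀ := n₀) (j := n) (d := 0 + 1) (by rw [zero_add]; exact h2.symm)]
        exact H.adj_g 0

/-- there are no hubs at the positions `-m`, `k ≤ m` -/
def HF (g : N.M → Vx N.M) (k : N.M) : Prop := ∀ m, k ≤ m → ∀ s, g m ≠ z s

theorem DRay.exists_HF (H : DRay f g) : ∃ k, HF g k := by
  by_cases hex : ∃ t n, g n = z t
  · obtain ⟨t, n, hn⟩ := hex
    obtain ⟨t, _, ⟨n, hn⟩, hmin⟩ := lnp_S1 (P := fun t => ∃ n, g n = z t)
      (S1.ex (D0.S1 (H.fg.eqz (Tm.var 0) (Tm.var 1)))) t ⟨n, hn⟩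
    refine ⟨n + 1, fun m hm s hs => ?_⟩
    have hnm : n < m := add_one_le_iff'.1 hm
    rcases lt_trichotomy s t with h1 | h1 | h1
    · exact hmin s h1 ⟨m, hs⟩
    · subst h1
      have := H.inj_g _ _ (hn.trans hs.symm)
      exact absurd hnm (this ▸ lt_irrefl _)
    · have h0 : IRT.sh f g n 0 = z t := by rw [sh_g (zero_add n)]; exact hn
      obtain ⟨j, hj, hzj⟩ := (H.sh n).all_lt h0 h1
      rcases le_total j n with h2 | h2
      · obtain ⟨d, hd⟩ := ge_add h2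
        rw [sh_g hd.symm] at hzj
        have := H.inj_g _ _ (hzj.trans hs.symm)
        subst this
        rw [hd] at hnm
        exact absurd hnm (not_lt_of_ge (le_add_of_nonneg_left (zero_le' _)))
      · obtain ⟨d, hd⟩ := ge_add h2
        rw [sh_f H.zero hd.symm] at hzj
        obtain ⟨_, rfl⟩ := H.inj_fg _ _ (hzj.trans hs.symm)
        exact absurd hnm (not_lt_of_ge (zero_le' _))
  · push Not at hex
    exact ⟨0, fun m _ s => hex s m⟩

theorem DRay.HF_of_w (H : DRay f g) {k a s : N.M} (hk : g k = w a s) : HF g k := by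
  intro m hm t ht
  rcases lt_or_eq_of_le hm with h1 | rfl
  · obtain ⟨c, rfl⟩ := gt_add h1
    have h0 : IRT.sh f g (k + c + 1) 0 = z t := by rw [sh_g (zero_add _)]; exact ht
    refine (H.sh (k + c + 1)).no_w h0 (m := c + 1) ?_ a s ?_
    · exact lt_of_le_of_lt (zero_le' c) (lt_succ c)
    · rw [sh_g (d := k) (by ring)]; exact hk
  · rw [hk] at ht
    cases ht

/-- the vertices of the lane `a` -/
def Lane (a : N.M) (v : Vx N.M) : Prop :=
  ∃ t, v = w a t ∨ v = y a t ∨ v = y' a t ∨ (v = r t ∧ IA t a) ∨ (v = q t ∧ IB t a) ∨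
    (v = p t ∧ IB t a)

theorem DRay.lane_D0 (H : DRay f g) (a : N.M) : D0 (fun v => Lane a (g (v 0))) := by
  refine D0.congr (R := fun v => ∃ t, t ≤ cod (g (v 0)) ∧
    (cod (g (v 0)) = cod (w a t) ∨ cod (g (v 0)) = cod (y a t) ∨ cod (g (v 0)) = cod (y' a t) ∨
    (cod (g (v 0)) = cod (r t) ∧ IA t a) ∨ (cod (g (v 0)) = cod (q t) ∧ IB t a) ∨
    (cod (g (v 0)) = cod (p t) ∧ IB t a))) ?_ ?_
  · refine D0.pfn (P := fun c => ∃ t, t ≤ c ∧
      (c = cod (w a t) ∨ c = cod (y a t) ∨ c = cod (y' a t) ∨ (c = cod (r t) ∧ IA t a) ∨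
      (c = cod (q t) ∧ IB t a) ∨ (c = cod (p t) ∧ IB t a)))
      (D0.bexLe (Tm.var 0) ?_) (φ := fun n => cod (g n)) H.fg
    refine D0.or ?_ (D0.or ?_ (D0.or ?_ (D0.or (D0.and ?_ ?_) (D0.or (D0.and ?_ ?_)
      (D0.and ?_ ?_)))))
    · exact D0.eq (Tm.var 1) (tcw (Tm.const a) (Tm.var 0))
    · exact D0.eq (Tm.var 1) (tcy (Tm.const a) (Tm.var 0))
    · exact D0.eq (Tm.var 1) (tcy' (Tm.const a) (Tm.var 0))
    · exact D0.eq (Tm.var 1) (tcr (Tm.var 0))
    · exact IA_D0 (Tm.var 0) (Tm.const a)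
    · exact D0.eq (Tm.var 1) (tcq (Tm.var 0))
    · exact IB_D0 (Tm.var 0) (Tm.const a)
    · exact D0.eq (Tm.var 1) (tcp (Tm.var 0))
    · exact IB_D0 (Tm.var 0) (Tm.const a)
  · intro v
    constructor
    · rintro ⟨t, _, h⟩
      refine ⟨t, ?_⟩
      rcases h with h | h | h | ⟨h, h'⟩ | ⟨h, h'⟩ | ⟨h, h'⟩
      · exact Or.inl (cod_inj h)
      · exact Or.inr (Or.inl (cod_inj h))
      · exact Or.inr (Or.inr (Or.inl (cod_inj h)))
      · exact Or.inr (Or.inr (Or.inr (Or.inl ⟨cod_inj h, h'⟩)))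
      · exact Or.inr (Or.inr (Or.inr (Or.inr (Or.inl ⟨cod_inj h, h'⟩))))
      · exact Or.inr (Or.inr (Or.inr (Or.inr (Or.inr ⟨cod_inj h, h'⟩))))
    · rintro ⟨t, h⟩
      have ht : t = tt (g (v 0)) := by
        rcases h with h | h | h | ⟨h, _⟩ | ⟨h, _⟩ | ⟨h, _⟩ <;> rw [h] <;> rfl
      refine ⟨t, ht ▸ tt_le _, ?_⟩
      rcases h with h | h | h | ⟨h, h'⟩ | ⟨h, h'⟩ | ⟨h, h'⟩
      · exact Or.inl (by rw [h])
      · exact Or.inr (Or.inl (by rw [h]))
      · exact Or.inr (Or.inr (Or.inl (by rw [h])))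
      · exact Or.inr (Or.inr (Or.inr (Or.inl ⟨by rw [h], h'⟩)))
      · exact Or.inr (Or.inr (Or.inr (Or.inr (Or.inl ⟨by rw [h], h'⟩))))
      · exact Or.inr (Or.inr (Or.inr (Or.inr (Or.inr ⟨by rw [h], h'⟩))))

theorem DRay.pred_r' (H : DRay f g) {k m t : N.M} (hk : HF g k) (hm : k ≤ m) (h : g m = r t) :
    ∃ a, g (m + 1) = y a t ∧ IA t a := by
  have h1 := H.adj_g m
  rw [h] at h1
  rcases pred_r h1 with ⟨a, h2⟩ | h2
  · have h3 := H.adj_g (m + 1)
    rw [h2] at h3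
    exact absurd (pred_u h3) (hk _ ((hm.trans (lt_succ m).le).trans (lt_succ _).le) _)
  · exact h2

theorem DRay.pred_p' (H : DRay f g) {k m t : N.M} (hk : HF g k) (hm : k ≤ m) (h : g m = p t) :
    ∃ a, g (m + 1) = w a (t + 1) ∧ IB t a := by
  have h1 := H.adj_g m
  rw [h] at h1
  rcases pred_p h1 with h2 | h2
  · exact absurd h2 (hk _ (hm.trans (lt_succ m).le) _)
  · exact h2

theorem DRay.pred_q' (H : DRay f g) {m t : N.M} (h : g m = q t) : g (m + 1) = p t := by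
  have h1 := H.adj_g m
  rw [h] at h1
  exact pred_q h1

theorem DRay.pred_y1 (H : DRay f g) {m a t : N.M} (h : g m = y a t) : g (m + 1) = w a (t + 1) := by
  have h1 := H.adj_g m
  rw [h] at h1
  exact pred_y h1

theorem DRay.lane_step (H : DRay f g) {k m a : N.M} (hk : HF g k) (hm : k ≤ m)
    (h : Lane a (g m)) : Lane a (g (m + 1)) := by
  obtain ⟨t, h⟩ := h
  rcases h with h | h | h | ⟨h, h'⟩ | ⟨h, h'⟩ | ⟨h, h'⟩
  · have h1 := H.adj_g m
    rw [h] at h1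
    rcases pred_w h1 with ⟨h2, h3⟩ | ⟨h2, h3⟩ | h2
    · exact ⟨t, Or.inr (Or.inr (Or.inr (Or.inl ⟨h2, h3⟩)))⟩
    · exact ⟨t, Or.inr (Or.inr (Or.inr (Or.inr (Or.inl ⟨h2, h3⟩))))⟩
    · exact ⟨t, Or.inr (Or.inr (Or.inl h2))⟩
  · exact ⟨t + 1, Or.inl (H.pred_y1 h)⟩
  · have h1 := H.adj_g m
    rw [h] at h1
    exact ⟨t, Or.inr (Or.inl (pred_y' h1))⟩
  · obtain ⟨a', h1, h2⟩ := H.pred_r' hk hm h
    obtain rfl := h'.uniq h2
    exact ⟨t, Or.inr (Or.inl h1)⟩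
  · exact ⟨t, Or.inr (Or.inr (Or.inr (Or.inr (Or.inr ⟨H.pred_q' h, h'⟩))))⟩
  · obtain ⟨a', h1, h2⟩ := H.pred_p' hk hm h
    obtain rfl := h'.uniq h2
    exact ⟨t + 1, Or.inl h1⟩

theorem DRay.lane_all (H : DRay f g) {k a : N.M} (hk : HF g k) (h : Lane a (g k)) (d : N.M) :
    Lane a (g (k + d)) := by
  refine ind_D0 (P := fun d => Lane a (g (k + d))) ?_ ?_ ?_ d
  · exact (H.lane_D0 a).pred (R := fun n => Lane a (g n)) ((Tm.const k).add (Tm.var 0))
  · rw [add_zero]; exact h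
  · intro d ih
    rw [← add_assoc]
    exact H.lane_step hk (le_add_of_nonneg_right (zero_le' _)) ih

theorem Lane.w_eq {a a' t : N.M} (h : Lane a (w a' t)) : a = a' := by
  obtain ⟨s, h⟩ := h
  rcases h with h | h | h | ⟨h, _⟩ | ⟨h, _⟩ | ⟨h, _⟩
  · injection h with h1 h2; exact h1.symm
  all_goals cases h

theorem DRay.w_uniq (H : DRay f g) {k k' a a' s s' : N.M} (hk : g k = w a s)
    (hk' : g k' = w a' s') : a = a' := by
  rcases le_total k k' with h | h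
  · obtain ⟨d, rfl⟩ := ge_add h
    have h1 := H.lane_all (H.HF_of_w hk) ⟨s, Or.inl hk⟩ d
    rw [hk'] at h1
    exact h1.w_eq
  · obtain ⟨d, rfl⟩ := ge_add h
    have h1 := H.lane_all (H.HF_of_w hk') ⟨s', Or.inl hk'⟩ d
    rw [hk] at h1
    exact h1.w_eq.symm

/-- the double ray uses the edge from `v` to `v'` -/
def Run (f g : N.M → Vx N.M) (v v' : Vx N.M) : Prop :=
  (∃ n, v = f n ∧ v' = f (n + 1)) ∨ ∃ n, v = g (n + 1) ∧ v' = g n

theorem DRay.climb1 (H : DRay f g) {k m a t : N.M} (hk : HF g k) (hm : k ≤ m)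
    (h : g m = w a t) : (∃ m', m ≤ m' ∧ g (m' + 1) = w a (t + 1)) ∧
      (IA t a → ∃ j, g (j + 1) = r t) ∧ (IB t a → Run f g (p t) (q t)) := by
  have h1 := H.adj_g m
  rw [h] at h1
  have hm1 : k ≤ m + 1 := hm.trans (lt_succ m).le
  rcases pred_w h1 with ⟨h2, h3⟩ | ⟨h2, h3⟩ | h2
  · obtain ⟨a', h4, h5⟩ := H.pred_r' hk hm1 h2
    obtain rfl := h3.uniq h5
    exact ⟨⟨m + 1 + 1, (lt_succ m).le.trans (lt_succ _).le, H.pred_y1 h4⟩, fun _ => ⟨m, h2⟩,
      fun h6 => (IA_not_IB h3 h6).elim⟩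
  · have h4 := H.pred_q' h2
    obtain ⟨a', h5, h6⟩ := H.pred_p' hk (hm1.trans (lt_succ _).le) h4
    obtain rfl := h3.uniq h6
    exact ⟨⟨m + 1 + 1, (lt_succ m).le.trans (lt_succ _).le, h5⟩, fun h7 => (IA_not_IB h7 h3).elim,
      fun _ => Or.inr ⟨m + 1, h4.symm, h2.symm⟩⟩
  · have h3 := H.adj_g (m + 1)
    rw [h2] at h3
    have h4 := pred_y' h3
    obtain ⟨h5, h6⟩ := pred_y'' h3
    exact ⟨⟨m + 1 + 1, (lt_succ m).le.trans (lt_succ _).le, H.pred_y1 h4⟩, fun h7 => absurd h7 h5,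
      fun h7 => absurd h7 h6⟩

theorem DRay.climb (H : DRay f g) {k a s : N.M} (hk : g k = w a s) (d : N.M) :
    ∃ m, k ≤ m ∧ g m = w a (s + d) := by
  refine ind_S1 (P := fun d => ∃ m, k ≤ m ∧ g m = w a (s + d)) ?_ ?_ ?_ d
  · refine S1.ex (D0.S1 (D0.and (D0.le (Tm.const k) (Tm.var 0)) ?_))
    exact H.fg.eqw (Tm.var 0) (Tm.const a) ((Tm.const s).add (Tm.var 1))
  · exact ⟨k, le_rfl, by rw [add_zero]; exact hk⟩
  · rintro d ⟨m, hm, h⟩
    obtain ⟨⟨m', hm', h'⟩, _⟩ := H.climb1 (H.HF_of_w hk) hm h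
    exact ⟨m' + 1, (hm.trans hm').trans (lt_succ m').le, by rw [← add_assoc]; exact h'⟩

theorem DRay.toW (H : DRay f g) : ∃ k a s, g k = w a s := by
  obtain ⟨k, hk⟩ := H.exists_HF
  have hy : ∀ m a t, g m = y a t → ∃ k a s, g k = w a s := fun m a t h => ⟨_, _, _, H.pred_y1 h⟩
  have hr : ∀ m t, k ≤ m → g m = r t → ∃ k a s, g k = w a s := fun m t hm h => by
    obtain ⟨a, h1, _⟩ := H.pred_r' hk hm h
    exact hy _ _ _ h1
  have hp : ∀ m t, k ≤ m → g m = p t → ∃ k a s, g k = w a s := fun m t hm h => by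
    obtain ⟨a, h1, _⟩ := H.pred_p' hk hm h
    exact ⟨_, _, _, h1⟩
  have hq : ∀ m t, k ≤ m → g m = q t → ∃ k a s, g k = w a s := fun m t hm h =>
    hp (m + 1) t (hm.trans (lt_succ m).le) (H.pred_q' h)
  cases h : g k with
  | z t => exact absurd h (hk k le_rfl t)
  | p t => exact hp k t le_rfl h
  | q t => exact hq k t le_rfl h
  | r t => exact hr k t le_rfl h
  | u t a =>
    have h1 := H.adj_g k
    rw [h] at h1
    exact absurd (pred_u h1) (hk _ (lt_succ k).le _)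
  | x t a =>
    have h1 := H.adj_g k
    rw [h] at h1
    rcases pred_x h1 with h2 | h2
    · exact hr _ _ (lt_succ k).le h2
    · exact hq _ _ (lt_succ k).le h2
  | w a t => exact ⟨k, a, t, h⟩
  | y a t => exact hy k a t h
  | y' a t =>
    have h1 := H.adj_g k
    rw [h] at h1
    exact hy _ _ _ (pred_y' h1)

theorem DRay.str (H : DRay f g) {k a s : N.M} (hk : g k = w a s) : ∃ T, ∀ t, T ≤ t →
    (∃ m, g (m + 1) = w a (t + 1)) ∧ (IB t a → Run f g (p t) (q t)) ∧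
      (IA t a → Run f g (p t) (q t)) := by
  have HFf : FRay f := ⟨H.ff, H.inj_f, H.adj_f⟩
  obtain ⟨m0, _, t0, h0⟩ := HFf.hub 0
  refine ⟨max s t0, fun t ht => ?_⟩
  obtain ⟨d, hd⟩ := ge_add ((le_max_left s t0).trans ht)
  obtain ⟨m, hm, h1⟩ := H.climb hk d
  rw [← hd] at h1
  obtain ⟨⟨m', _, h2⟩, h3, h4⟩ := H.climb1 (H.HF_of_w hk) hm h1
  refine ⟨⟨m', h2⟩, h4, fun hA => ?_⟩
  obtain ⟨j, hj⟩ := h3 hA
  obtain ⟨n, _, hn⟩ := HFf.all h0 ((le_max_right s t0).trans ht)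
  have e1 := H.adj_f n
  rw [hn] at e1
  rcases succ_z e1 with e2 | ⟨b, e2⟩
  · have e3 := H.adj_f (n + 1)
    rw [e2] at e3
    exact Or.inl ⟨n + 1, e2.symm, (succ_p e3).symm⟩
  · have e3 := H.adj_f (n + 1)
    rw [e2] at e3
    have e4 := succ_u e3
    exact absurd (H.inj_fg _ _ (e4.trans hj.symm)).1 (succ_ne_zero' _)

end Pool.Agent.KS6_46.IRT
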