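import Mathlib
import Pool.Graph.R_pool_sql_team_seeded_1acbe0a2.Y548.HV.Defs
import Pool.Agent.KS6_46.IRT.Rays
import Pool.Agent.KS6_46.IRT.Str

/-!
`IRT_DED` fails in every model of `RCA₀`.
-/

set_option autoImplicit false
set_option linter.unusedSectionVars false
set_option linter.unusedVariables false

namespace Pool.Agent.KS6_46.IRT

open Pool.Agent.Helper617.RM Vx Pool.Agent.Y548.HV Pool.Agent.Y579.HR

universe u

variable {N : L2Structure.{u}} [IsModelRCA0 N]

theorem isDGraph_EE : IsDGraph N Set.univ (EE N) := by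
  refine ⟨?_, EE_mem, ?_⟩
  · have := comp_D0 (N := N) (P := fun _ => True) D0.true
    simpa using this
  · intro e he
    obtain ⟨v, v', rfl, a, h⟩ := EE_inv he
    exact ⟨cod v, cod v', trivial, trivial, fun e => h.ne (cod_inj e), rfl⟩

theorem isDoubleRay_can (a : N.M) :
    IsDoubleRay N Set.univ (EE N) (fun n => cod (fwd a n)) (fun n => cod (bwd a n)) := by
  refine ⟨fun n => ⟨trivial, trivial⟩, ?_, ?_, ?_, ?_, fun n => mem_EE_f a n,
    fun n => mem_EE_g a n⟩
  · have h1 : FR a (4 * 0) (fwd a (4 * 0)) := fwd_spec a _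
    have h2 := FR0 h1
    have h3 := BR0 (bwd_spec a 0)
    show cod (fwd a 0) = cod (bwd a 0)
    rw [mul_zero] at h2
    rw [h2, h3]
  · intro n m h
    have h' := cod_inj h
    exact FR_inj (fwd_spec a n) (h' ▸ fwd_spec a m)
  · intro n m h
    have h' := cod_inj h
    exact BR_inj (bwd_spec a n) (h' ▸ bwd_spec a m)
  · intro n m h
    have h' := cod_inj h
    exact FR_BR (fwd_spec a n) (h' ▸ bwd_spec a m)

theorem runs_can {a : N.M} {u v : N.M}
    (h : Runs N .D (fun n => cod (fwd a n)) (fun n => cod (bwd a n)) u v) :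
    ∃ x y, u = cod x ∧ v = cod y ∧ Arc a x y := by
  rcases h with ⟨n, h1, h2⟩ | ⟨n, h1, h2⟩
  · exact ⟨_, _, h1, h2, FR_adj (fwd_spec a n) (fwd_spec a (n + 1))⟩
  · exact ⟨_, _, h1, h2, BR_adj (bwd_spec a (n + 1)) (bwd_spec a n)⟩

theorem many (k : N.M) :
    HasDisjointRays N .D .E .D Set.univ (EE N) (fun i => N.lt i k) := by
  have hF : ∀ {C : N.M → N.M → N.M → Prop}, D0 (fun v : Ctx N => C (v 0) (v 1) (v 2)) →
      {e | ∃ i, i ≤ e ∧ ∃ n, n ≤ e ∧ ∃ v, v ≤ e ∧ (e = pr i (pr n v) ∧ C (pr k i) n v)} ∈ N.Sets := by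
    intro C hC
    refine comp_D0 (P := fun e => ∃ i, i ≤ e ∧ ∃ n, n ≤ e ∧ ∃ v, v ≤ e ∧
      (e = pr i (pr n v) ∧ C (pr k i) n v)) ?_
    refine D0.bexLe (Tm.var 0) (D0.bexLe (Tm.var 1) (D0.bexLe (Tm.var 2) (D0.and ?_ ?_)))
    · exact D0.eq (Tm.var 3) ((Tm.var 2).pr ((Tm.var 1).pr (Tm.var 0)))
    · exact D0.rel3' hC ((Tm.const k).pr (Tm.var 2)) (Tm.var 1) (Tm.var 0)
  have hm : ∀ {C : N.M → N.M → N.M → Prop} {h : N.M → N.M → N.M}
      (hCh : ∀ a n c, C a n c ↔ c = h a n) (i n v : N.M),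
      pr i (pr n v) ∈ {e | ∃ i, i ≤ e ∧ ∃ n, n ≤ e ∧ ∃ v, v ≤ e ∧
        (e = pr i (pr n v) ∧ C (pr k i) n v)} ↔ v = h (pr k i) n := by
    intro C h hCh i n v
    constructor
    · rintro ⟨i', _, n', _, v', _, e, hc⟩
      obtain ⟨e1, e⟩ := pr_inj e
      obtain ⟨e2, e3⟩ := pr_inj e
      rw [e1, e2, e3]
      exact (hCh _ _ _).1 hc
    · intro hv
      exact ⟨i, fst_le_pr _ _, n, (fst_le_pr _ _).trans (snd_le_pr _ _), v,
        (snd_le_pr _ _).trans (snd_le_pr _ _), rfl, (hCh _ _ _).2 hv⟩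
  refine ⟨_, hF C1_D0, _, hF C2_D0, fun i n => cod (fwd (pr k i) n),
    fun i n => cod (bwd (pr k i) n), fun i _ n v => ?_, fun i _ n v => ?_, fun i _ => ?_, ?_⟩
  · exact hm (C := C1) (h := fun a n => cod (fwd a n)) (fun a n c => C1_iff) i n v
  · exact hm (C := C2) (h := fun a n => cod (bwd a n)) (fun a n c => C2_iff) i n v
  · exact isDoubleRay_can (pr k i)
  · intro i j hi hj hij u v huv
    obtain ⟨x, y, h1, h2, h3⟩ := runs_can huv.1
    obtain ⟨x', y', h4, h5, h6⟩ := runs_can huv.2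
    obtain rfl := cod_inj (h1.symm.trans h4)
    obtain rfl := cod_inj (h2.symm.trans h5)
    have hi' : i < k := hi
    have hj' : j < k := hj
    exact Arc_disj (fun e => hij (pr_inj e).2) (same_pr hi' hj') (same_pr hj' hi') h3 h6

theorem not_inf : ¬ HasDisjointRays N .D .E .D Set.univ (EE N) (fun _ => True) := by
  rintro ⟨F, hF, G, hG, f, g, h1, h2, h3, h4⟩
  have h1 : ∀ i n v, pr i (pr n v) ∈ F ↔ v = f i n := fun i n v => h1 i trivial n v
  have h2 : ∀ i n v, pr i (pr n v) ∈ G ↔ v = g i n := fun i n v => h2 i trivial n v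
  have h3 : ∀ i, IsDoubleRay N Set.univ (EE N) (f i) (g i) := fun i => h3 i trivial
  -- decoding
  have hf : ∀ i n, ∃ v, f i n = cod v := fun i n => by
    obtain ⟨v, v', e, _, _⟩ := EE_inv' ((h3 i).adj_f n)
    exact ⟨v, e⟩
  have hg : ∀ i n, ∃ v, g i n = cod v := fun i n => by
    obtain ⟨v, v', _, e, _⟩ := EE_inv' ((h3 i).adj_g n)
    exact ⟨v', e⟩
  choose vf hvf using hf
  choose vg hvg using hg
  have hDR : ∀ i, DRay (vf i) (vg i) := by
    intro i
    refine ⟨?_, ?_, ?_, ?_, ?_, ?_, ?_, ?_⟩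
    · refine (D0.mem ((Tm.const i).pr ((Tm.var 0).pr (Tm.var 1))) hF).congr fun v => ?_
      rw [h1, hvf]
    · refine (D0.mem ((Tm.const i).pr ((Tm.var 0).pr (Tm.var 1))) hG).congr fun v => ?_
      rw [h2, hvg]
    · apply cod_inj
      rw [← hvf, ← hvg]
      exact (h3 i).zero
    · intro n m e
      exact (h3 i).inj_f n m (by rw [hvf, hvf, e])
    · intro n m e
      exact (h3 i).inj_g n m (by rw [hvg, hvg, e])
    · intro n m e
      exact (h3 i).inj_fg n m (by rw [hvf, hvg, e])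
    · intro n
      obtain ⟨v, v', e, e', hE⟩ := EE_inv' ((h3 i).adj_f n)
      have e1 : v = vf i n := cod_inj (e.symm.trans (hvf i n))
      have e2 : v' = vf i (n + 1) := cod_inj (e'.symm.trans (hvf i (n + 1)))
      rw [← e1, ← e2]; exact hE
    · intro n
      obtain ⟨v, v', e, e', hE⟩ := EE_inv' ((h3 i).adj_g n)
      have e1 : v = vg i (n + 1) := cod_inj (e.symm.trans (hvg i (n + 1)))
      have e2 : v' = vg i n := cod_inj (e'.symm.trans (hvg i n))
      rw [← e1, ← e2]; exact hE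
  have hdis : ∀ i j, i ≠ j → ∀ v v', ¬ (Run (vf i) (vg i) v v' ∧ Run (vf j) (vg j) v v') := by
    intro i j hij v v' h
    have key : ∀ i, Run (vf i) (vg i) v v' → Runs N .D (f i) (g i) (cod v) (cod v') := by
      rintro i (⟨n, rfl, rfl⟩ | ⟨n, rfl, rfl⟩)
      · exact Or.inl ⟨n, (hvf i n).symm, (hvf i (n + 1)).symm⟩
      · exact Or.inr ⟨n, (hvg i (n + 1)).symm, (hvg i n).symm⟩
    exact h4 i j trivial trivial hij (cod v) (cod v') ⟨key i h.1, key j h.2⟩
  -- the types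
  choose k α s hα using fun i => (hDR i).toW
  choose T hT using fun i => (hDR i).str (hα i)
  have hαD : D0 (fun v => v 1 = α (v 0)) := by
    have hS : S1 (fun v : Ctx N => ∃ k s, g (v 0) k = cod (w (v 1) s)) := by
      refine S1.ex (S1.ex (D0.S1 ?_))
      refine (D0.mem (X := G) ((Tm.var 2).pr ((Tm.var 1).pr (tcw (Tm.var 3) (Tm.var 0)))) hG).congr
        fun v => ?_
      rw [h2]
      exact eq_comm
    have hiff : ∀ i a, (∃ k s, g i k = cod (w a s)) ↔ a = α i := by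
      intro i a
      constructor
      · rintro ⟨k', s', e⟩
        have e1 : vg i k' = w a s' := cod_inj ((hvg i k').symm.trans e)
        exact (hDR i).w_uniq e1 (hα i)
      · rintro rfl
        exact ⟨k i, s i, by rw [hvg, hα]⟩
    refine d0_of_D1 (R := fun i a => a = α i) (hS.congr fun v => hiff _ _) ?_
    refine S1.congr (R := fun v => ∃ b, (∃ k s, g (v 0) k = cod (w b s)) ∧ b ≠ v 1) ?_ ?_
    · refine S1.ex (S1.and ?_ (D0.eq (Tm.var 0) (Tm.var 2)).not.S1)
      exact S1.rel (R := fun i a => ∃ k s, g i k = cod (w a s)) hS (Tm.var 1) (Tm.var 0)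
    · intro v
      constructor
      · rintro ⟨b, hb, hne⟩ e
        exact hne (((hiff _ _).1 hb).trans e.symm)
      · intro hne
        exact ⟨α (v 0), (hiff _ _).2 rfl, fun e => hne e.symm⟩
  have hαinj : ∀ i j, α i = α j → i = j := by
    intro i j hij
    by_contra hne
    obtain ⟨⟨m, hm⟩, _⟩ := hT i (max (T i) (T j)) (le_max_left _ _)
    obtain ⟨⟨m', hm'⟩, _⟩ := hT j (max (T i) (T j)) (le_max_right _ _)
    rw [← hij] at hm'
    have e1 := (hDR i).adj_g m
    have e2 := (hDR j).adj_g m'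
    rw [hm] at e1
    rw [hm'] at e2
    have e3 := succ_w_uniq e1 e2
    exact hdis i j hne _ _ ⟨Or.inr ⟨m, hm.symm, rfl⟩, Or.inr ⟨m', hm'.symm, e3⟩⟩
  have hSame : ∀ i j, i ≠ j → Same (α i) (α j) := by
    intro i j hij
    by_contra hne
    obtain ⟨t, ht, hA, hB⟩ := freq hne (max (T i) (T j))
    have r1 := (hT i t ((le_max_left _ _).trans ht)).2.2 hA
    have r2 := (hT j t ((le_max_right _ _).trans ht)).2.1 hB
    exact hdis i j hij _ _ ⟨r1, r2⟩
  obtain ⟨j, hj, hb⟩ := unbounded_of_injective hαD hαinj 1 (pr (α 0 + 1) (α 0 + 1))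
  have hj0 : (0 : N.M) ≠ j := by
    rintro rfl
    exact absurd (zero_lt_one (α := N.M)) (not_lt_of_ge hj)
  rcases hSame 0 j hj0 with h | ⟨c, hc, i', _, j', _, hi', hj', e1, e2⟩
  · exact hj0 (hαinj _ _ h)
  · rw [e2] at hb
    have h5 : c < α 0 + 1 := lt_add_one_iff'.2 hc
    have h6 : pr c j' < pr (α 0 + 1) (α 0 + 1) := pr_lt_pr (add_lt_add h5 (hj'.trans h5))
    exact absurd h6 (not_lt_of_ge hb)

/-- `IRT_DED` fails in every model of `RCA₀`. -/
theorem not_IRT_DED (N : L2Structure.{u}) (h : IsModelRCA0 N) : ¬ IRT N .D .E .D := fun H =>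
  not_inf (H Set.univ (EE N) isDGraph_EE many)

end Pool.Agent.KS6_46.IRT
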